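import Pool.Agent.H.MP_cba12a_lc.SR.Lost

/-!
For most choices of the signs few points are lost, or the formula is almost always true.
-/

namespace Pool.Agent.H.MP_cba12a_lc.SR

open Finset

variable {n s : ℕ}

/-- Markov's inequality for the average over the signs -/
theorem markov (F : (Fin s → Fin n → Bool) → ℝ) (h0 : ∀ σ, 0 ≤ F σ) (c : ℝ) (hc : 0 < c)
    (d : ℕ) (hd : 1 ≤ d) (h : av F ≤ c / d) :
    ∃ Bad : Finset (Fin s → Fin n → Bool),
      d * Bad.card ≤ Fintype.card (Fin s → Fin n → Bool) ∧ ∀ σ, σ ∉ Bad → F σ ≤ c := by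
  classical
  refine ⟨univ.filter fun σ => c < F σ, ?_, ?_⟩
  · have hd' : (0 : ℝ) < d := by exact_mod_cast hd
    have hM : (0 : ℝ) < Fintype.card (Fin s → Fin n → Bool) := by
      exact_mod_cast Fintype.card_pos
    have h1 : (∑ σ, F σ) ≤ c / d * Fintype.card (Fin s → Fin n → Bool) := by
      unfold av at h
      rwa [div_le_iff₀ hM] at h
    have h2 : (univ.filter fun σ : Fin s → Fin n → Bool => c < F σ).card • c ≤
        ∑ σ ∈ univ.filter fun σ : Fin s → Fin n → Bool => c < F σ, F σ := by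
      apply card_nsmul_le_sum
      intro σ hσ
      exact (mem_filter.1 hσ).2.le
    have h3 : ∑ σ ∈ univ.filter fun σ : Fin s → Fin n → Bool => c < F σ, F σ ≤ ∑ σ, F σ :=
      sum_le_sum_of_subset_of_nonneg (filter_subset _ _) fun σ _ _ => h0 σ
    rw [nsmul_eq_mul] at h2
    have h4 : c * ((d : ℝ) * (univ.filter fun σ : Fin s → Fin n → Bool => c < F σ).card) ≤
        c * Fintype.card (Fin s → Fin n → Bool) := by
      have h5 : ((univ.filter fun σ : Fin s → Fin n → Bool => c < F σ).card : ℝ) * c ≤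
          c / d * Fintype.card (Fin s → Fin n → Bool) := (h2.trans h3).trans h1
      calc c * ((d : ℝ) * (univ.filter fun σ : Fin s → Fin n → Bool => c < F σ).card) =
          d * (((univ.filter fun σ : Fin s → Fin n → Bool => c < F σ).card : ℝ) * c) := by ring
        _ ≤ d * (c / d * Fintype.card (Fin s → Fin n → Bool)) := by gcongr
        _ = c * Fintype.card (Fin s → Fin n → Bool) := by
            field_simp
    have h6 := le_of_mul_le_mul_left h4 hc
    exact_mod_cast h6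
  · intro σ hσ
    by_contra hcon
    exact hσ (mem_filter.2 ⟨mem_univ _, not_le.1 hcon⟩)

/-
PROOF. Two cases. (1) `32 * a ^ 2 * d ≤ Z S`: `Bad = {σ | 1 / (32 a ^ 2) < pr (sdnf S σ x =
false)}`; `av (fun σ => pr (sdnf S σ x = false)) ≤ 1 / Z S` (`av_pr`, `av_none`, `sdnf_iff`), so by
Markov's inequality (`markov` below) the fraction of bad `σ` is at most `32 a ^ 2 / Z S ≤ 1 / d`.
(2) `Z S < 32 * a ^ 2 * d`: `Bad = {σ | 1 / (8 a) < pr (Lost ..)}`; by `av_lost` and `hE` the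
average is at most `1 / (8 a d)`. Use Markov again.
-/
theorem exists_bad (S : Fin s → Finset (Fin n)) (m0 r0 W a d : ℕ) (τ θ : ℝ) (ha : 1 ≤ a)
    (hd : 1 ≤ d) (hτ : 0 ≤ τ) (hr : 2 ≤ r0)
    (hθ : 2 * θ ≤ (1 / 2) ^ ((m0 + 1) * m0 + m0 * W) * τ)
    (hE : s * (1 / 2) ^ (W + 1) +
      32 * (a : ℝ) ^ 2 * d * ((1 / 2) ^ (m0 + 1) + τ + 2 * (1 / 2) ^ r0) ≤ 1 / (8 * a * d)) :
    ∃ Bad : Finset (Fin s → Fin n → Bool),
      d * Bad.card ≤ Fintype.card (Fin s → Fin n → Bool) ∧ ∀ σ, σ ∉ Bad →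
        pr (fun x => sdnf S σ x = false) ≤ 1 / (32 * (a : ℝ) ^ 2) ∨
        pr (fun x => Lost r0 W θ S σ x) ≤ 1 / (8 * (a : ℝ)) := by
  have ha' : (0 : ℝ) < a := by exact_mod_cast ha
  have hd' : (0 : ℝ) < d := by exact_mod_cast hd
  rcases le_or_gt (32 * (a : ℝ) ^ 2 * d) (Z S) with hZ | hZ
  · have h1 : av (fun σ => pr fun x => sdnf S σ x = false) ≤ 1 / Z S := by
      rw [av_pr fun σ x => sdnf S σ x = false]
      have h2 : ∀ x : Fin n → Bool, (av fun σ => ind (sdnf S σ x = false)) ≤ 1 / Z S := by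
        intro x
        have h3 : (fun σ => ind (sdnf S σ x = false)) = fun σ => ind (Nst S σ x = ∅) := by
          funext σ
          congr 1
          rw [← Bool.not_eq_true, sdnf_iff, not_nonempty_iff_eq_empty]
        rw [h3]
        exact av_none S x
      have h4 : (∑ x : Fin n → Bool, av fun σ => ind (sdnf S σ x = false)) ≤
          ∑ _x : Fin n → Bool, 1 / Z S := sum_le_sum fun x _ => h2 x
      rw [sum_const, card_univ, Fintype.card_pi, nsmul_eq_mul] at h4
      simp only [Fintype.card_bool, prod_const, card_univ, Fintype.card_fin] at h4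
      push_cast at h4
      rw [div_le_iff₀ (by positivity)]
      linarith
    have h5 : (1 : ℝ) / Z S ≤ 1 / (32 * (a : ℝ) ^ 2) / d := by
      rw [div_div]
      exact one_div_le_one_div_of_le (by positivity) hZ
    obtain ⟨Bad, hB1, hB2⟩ := markov (fun σ => pr fun x => sdnf S σ x = false)
      (fun σ => pr_nonneg _) (1 / (32 * (a : ℝ) ^ 2)) (by positivity) d hd (h1.trans h5)
    exact ⟨Bad, hB1, fun σ hσ => Or.inl (hB2 σ hσ)⟩
  · have h1 := av_lost S m0 r0 W τ θ hτ hr hθ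
    have h2 : s * (1 / 2 : ℝ) ^ (W + 1) + Z S * ((1 / 2) ^ (m0 + 1) + τ + 2 * (1 / 2) ^ r0) ≤
        s * (1 / 2 : ℝ) ^ (W + 1) +
          32 * (a : ℝ) ^ 2 * d * ((1 / 2) ^ (m0 + 1) + τ + 2 * (1 / 2) ^ r0) := by
      gcongr
    have h3 : (1 : ℝ) / (8 * a * d) = 1 / (8 * (a : ℝ)) / d := by
      rw [div_div]
    obtain ⟨Bad, hB1, hB2⟩ := markov (fun σ => pr fun x => Lost r0 W θ S σ x)
      (fun σ => pr_nonneg _) (1 / (8 * (a : ℝ))) (by positivity) d hd
      (h1.trans (h2.trans (hE.trans h3.le)))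
    exact ⟨Bad, hB1, fun σ hσ => Or.inr (hB2 σ hσ)⟩

end Pool.Agent.H.MP_cba12a_lc.SR
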