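import Pool.Agent.H.MP_cba12a_lc.SR.Defs

/-!
Negative coefficients determine the point.
-/

namespace Pool.Agent.H.MP_cba12a_lc.SR

open Finset

variable {n : ℕ}

/-
PROOF. `co x G V = (∑ y, bR (G y) * chi x V y) / 2 ^ n` with `chi x V y = ∏ i ∈ V, (if y i = x i
then 1 else -1)`. For two points `x, z` one has `chi x V y = chi z V x * chi z V y` (each factor:
`sg1 x i y = sg1 z i x * sg1 z i y`), hence `co x G V = chi z V x * co z G V` (lemma
`co_change`). Suppose `x` and `z` both satisfy the condition. Then for all `C ⊆ R` with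
`1 ≤ |C| ≤ 2`: `chi z (A ∪ C) x = 1` (it is `1` or `-1`, `chi_sq`, and both coefficients are
negative). As `A` and `R` are disjoint, `chi z (A ∪ C) x = chi z A x * ∏ i ∈ C, sg1 z i x`. Let
`i ∈ R`; since `2 ≤ R.card` there is `i' ∈ R`, `i' ≠ i`. With `u = chi z A x`, `v = sg1 z i x`,
`v' = sg1 z i' x`: `u * v = 1`, `u * v' = 1`, `u * (v * v') = 1`; so `v = 1` (multiply the third by
`v'`... `u v v' = 1` and `u v' = 1` give `v = 1`), that is `x i = z i`. So if `z` is one point with
the property (if there is none, the probability is `0`), then all points with the property agree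
with `z` on `R`, and `pr (fun x => On z R x) = (1 / 2) ^ R.card` (`pr_on` with `Q = True`;
`pr (fun _ => True) = 1`, see `X10/Sig2.lean` for its proof, copy it).
-/
theorem co_change (x z : Fin n → Bool) (G : (Fin n → Bool) → Bool) (V : Finset (Fin n)) :
    co x G V = chi z V x * co z G V := by
  have h : ∀ y, chi x V y = chi z V x * chi z V y := by
    intro y
    unfold chi
    rw [← prod_mul_distrib]
    refine prod_congr rfl fun i _ => ?_
    unfold sg1
    cases x i <;> cases y i <;> cases z i <;> simp
  unfold co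
  rw [mul_div_assoc', mul_sum]
  congr 1
  refine sum_congr rfl fun y _ => ?_
  rw [h y]
  ring

private theorem cnt_pr_true : pr (fun _ : Fin n → Bool => True) = 1 := by
  classical
  rw [pr_def]
  simpa using mu_true (n := n)

private theorem cnt_pr_on (o : Fin n → Bool) (A : Finset (Fin n)) :
    pr (fun x => On o A x) = (1 / 2) ^ A.card := by
  have h := pr_on o A (fun _ : Fin n → Bool => True)
  rw [cnt_pr_true, mul_one] at h
  rw [← h]
  exact pr_congr fun x => by simp

private theorem cnt_pm {u : ℝ} (h : u ^ 2 = 1) : u = 1 ∨ u = -1 := by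
  have h1 : (u - 1) * (u + 1) = 0 := by linarith [h, sq u]
  rcases mul_eq_zero.1 h1 with h2 | h2
  · left; linarith
  · right; linarith


theorem pr_neg_le (G : (Fin n → Bool) → Bool) (A R : Finset (Fin n)) (hd : Disjoint A R)
    (hr : 2 ≤ R.card) :
    pr (fun x => ∀ C, C ⊆ R → 1 ≤ C.card → C.card ≤ 2 → co x G (A ∪ C) < 0) ≤
      (1 / 2) ^ R.card := by
  classical
  by_cases hz : ∃ z : Fin n → Bool, ∀ C, C ⊆ R → 1 ≤ C.card → C.card ≤ 2 → co z G (A ∪ C) < 0
  · obtain ⟨z, hz⟩ := hz
    rw [← cnt_pr_on z R]
    refine pr_mono fun x hx i hi => ?_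
    have hpos : ∀ C, C ⊆ R → 1 ≤ C.card → C.card ≤ 2 → chi z (A ∪ C) x = 1 := by
      intro C h1 h2 h3
      have h4 := hz C h1 h2 h3
      have h5 := hx C h1 h2 h3
      rw [co_change x z] at h5
      rcases cnt_pm (chi_sq z (A ∪ C) x) with h | h
      · exact h
      · rw [h] at h5
        linarith
    have hmul : ∀ C, C ⊆ R → chi z (A ∪ C) x = chi z A x * chi z C x := by
      intro C h1
      unfold chi
      exact prod_union (disjoint_of_subset_right h1 hd)
    obtain ⟨i', hi', hne⟩ : ∃ i' ∈ R, i' ≠ i := exists_mem_ne (by omega) i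
    have h1 : chi z A x * chi z {i'} x = 1 := by
      rw [← hmul {i'} (singleton_subset_iff.2 hi')]
      exact hpos _ (singleton_subset_iff.2 hi') (by simp) (by simp)
    have hsub : ({i, i'} : Finset (Fin n)) ⊆ R := by
      intro j hj
      rw [mem_insert, mem_singleton] at hj
      rcases hj with h | h
      · rw [h]; exact hi
      · rw [h]; exact hi'
    have hcard : ({i, i'} : Finset (Fin n)).card = 2 := card_pair hne.symm
    have h2 : chi z A x * chi z {i, i'} x = 1 := by
      rw [← hmul _ hsub]
      exact hpos _ hsub (by rw [hcard]; norm_num) (by rw [hcard])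
    have h3 : chi z {i, i'} x = sg1 z i x * chi z {i'} x := by
      unfold chi
      rw [prod_insert (by rw [mem_singleton]; exact hne.symm)]
    have h4 : sg1 z i x = 1 := by
      have : sg1 z i x * (chi z A x * chi z {i'} x) = 1 := by
        rw [← h2, h3]
        ring
      rw [h1, mul_one] at this
      exact this
    unfold sg1 at h4
    by_contra hc
    rw [if_neg hc] at h4
    norm_num at h4
  · push Not at hz
    have h0 : pr (fun x => ∀ C, C ⊆ R → 1 ≤ C.card → C.card ≤ 2 → co x G (A ∪ C) < 0) ≤
        pr (fun x : Fin n → Bool => x ∈ (∅ : Set (Fin n → Bool))) := by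
      refine pr_mono fun x hx => ?_
      obtain ⟨C, h1, h2, h3, h4⟩ := hz x
      exact absurd (hx C h1 h2 h3) (not_lt.2 h4)
    refine h0.trans ?_
    have h1 : pr (fun x : Fin n → Bool => x ∈ (∅ : Set (Fin n → Bool))) * 2 ^ n = 0 := by
      rw [← sum_bR (fun x : Fin n → Bool => x ∈ (∅ : Set (Fin n → Bool))) (fun _ => false)
        (fun x => by simp)]
      refine sum_eq_zero fun x _ => ?_
      simp [bR]
    have h2 : pr (fun x : Fin n → Bool => x ∈ (∅ : Set (Fin n → Bool))) = 0 := by
      rcases mul_eq_zero.1 h1 with h | h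
      · exact h
      · exact absurd h (by positivity)
    rw [h2]
    positivity

/-- the coefficient depends only on the orientation on `V` -/
theorem co_congr (o o' : Fin n → Bool) (G : (Fin n → Bool) → Bool) (V : Finset (Fin n))
    (h : ∀ i ∈ V, o i = o' i) : co o G V = co o' G V := by
  unfold co
  congr 1
  refine sum_congr rfl fun y _ => ?_
  congr 1
  unfold chi
  refine prod_congr rfl fun i hi => ?_
  unfold sg1
  rw [h i hi]

theorem abs_co_eq (o o' : Fin n → Bool) (G : (Fin n → Bool) → Bool) (V : Finset (Fin n)) :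
    |co o G V| = |co o' G V| := by
  rw [co_change o o', abs_mul]
  rcases cnt_pm (chi_sq o' V o) with h | h
  · rw [h, abs_one, one_mul]
  · rw [h, abs_neg, abs_one, one_mul]

end Pool.Agent.H.MP_cba12a_lc.SR
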