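import Pool.Agent.H.MP_cba12a_lc.SR.Defs

/-!
Initial segments of a finite set.
-/

namespace Pool.Agent.H.MP_cba12a_lc.SR

open Finset

variable {n : ℕ}

/-- `List.mem_of_mem_take`, `Finset.mem_sort`. -/
theorem pre_subset (A : Finset (Fin n)) (t : ℕ) : pre A t ⊆ A := by
  intro i hi
  exact (Finset.mem_sort (· ≤ ·)).1 (List.mem_of_mem_take (List.mem_toFinset.1 hi))

/-- The list `A.sort` has no duplicates and length `A.card`. -/
theorem card_pre (A : Finset (Fin n)) (t : ℕ) (ht : t ≤ A.card) : (pre A t).card = t := by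
  unfold pre
  rw [List.toFinset_card_of_nodup ((A.sort_nodup (· ≤ ·)).sublist (List.take_sublist _ _)),
    List.length_take, Finset.length_sort, min_eq_left ht]

theorem card_sdiff_pre (A : Finset (Fin n)) (t : ℕ) (ht : t ≤ A.card) :
    (A \ pre A t).card = A.card - t := by
  rw [card_sdiff_of_subset (pre_subset A t), card_pre A t ht]

theorem pre_zero (A : Finset (Fin n)) : pre A 0 = ∅ := by
  simp [pre]

/-- The elements of `pre A t` are smaller than the other elements of `A` (the list is sorted). -/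
theorem pre_lt (A : Finset (Fin n)) (t : ℕ) {i j : Fin n} (hi : i ∈ pre A t)
    (hj : j ∈ A \ pre A t) : i < j := by
  have h1 : (A.sort (· ≤ ·)).Pairwise (· < ·) := (Finset.sortedLT_sort A).pairwise
  rw [← List.take_append_drop t (A.sort (· ≤ ·)), List.pairwise_append] at h1
  have h2 := Finset.mem_sdiff.1 hj
  have h3 : j ∈ (A.sort (· ≤ ·)).take t ++ (A.sort (· ≤ ·)).drop t := by
    rw [List.take_append_drop]
    exact (Finset.mem_sort (· ≤ ·)).2 h2.1
  rcases List.mem_append.1 h3 with h4 | h4
  · exact absurd (List.mem_toFinset.2 h4) h2.2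
  · exact h1.2.2 i (List.mem_toFinset.1 hi) j h4

/-- The next initial segment has one more element, the smallest remaining one
(`List.take_succ`). -/
theorem exists_pre_succ (A : Finset (Fin n)) (t : ℕ) (ht : t < A.card) :
    ∃ c ∈ A \ pre A t, pre A (t + 1) = insert c (pre A t) ∧ ∀ i ∈ pre A t, i < c := by
  have hl : t < (A.sort (· ≤ ·)).length := by rwa [Finset.length_sort]
  have h1 : (A.sort (· ≤ ·)).take (t + 1) = (A.sort (· ≤ ·)).take t ++ [(A.sort (· ≤ ·))[t]] :=
    (List.take_append_getElem hl).symm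
  have h2 : pre A (t + 1) = insert (A.sort (· ≤ ·))[t] (pre A t) := by
    ext i
    unfold pre
    rw [h1, List.mem_toFinset, List.mem_append, List.mem_singleton, mem_insert,
      List.mem_toFinset, or_comm]
  have h3 : (A.sort (· ≤ ·))[t] ∉ pre A t := by
    intro h4
    have h5 := card_pre A (t + 1) ht
    rw [h2, insert_eq_of_mem h4, card_pre A t ht.le] at h5
    omega
  have h4 : (A.sort (· ≤ ·))[t] ∈ A \ pre A t :=
    mem_sdiff.2 ⟨(Finset.mem_sort (· ≤ ·)).1 (List.getElem_mem hl), h3⟩
  exact ⟨_, h4, h2, fun i hi => pre_lt A t hi h4⟩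

/-- sum of the geometric series over the initial segments -/
theorem sum_pre_le (w r0 : ℕ) :
    ∑ t ∈ (range (w + 1)).filter (fun t => t + r0 ≤ w), ((1 : ℝ) / 2) ^ (w - t) ≤
      2 * (1 / 2) ^ r0 := by
  by_cases h : r0 ≤ w
  · obtain ⟨m, rfl⟩ := Nat.exists_eq_add_of_le h
    have h1 : (range (r0 + m + 1)).filter (fun t => t + r0 ≤ r0 + m) = range (m + 1) := by
      ext t
      simp only [mem_filter, mem_range]
      omega
    have h2 : ∑ t ∈ range (m + 1), ((1 : ℝ) / 2) ^ (r0 + m - t) =
        (1 / 2) ^ r0 * ∑ t ∈ range (m + 1), ((1 : ℝ) / 2) ^ (m + 1 - 1 - t) := by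
      rw [mul_sum]
      refine sum_congr rfl fun t ht => ?_
      rw [← pow_add]
      congr 1
      have := mem_range.1 ht
      omega
    rw [h1, h2, sum_range_reflect (fun t => ((1 : ℝ) / 2) ^ t) (m + 1), mul_comm]
    refine mul_le_mul_of_nonneg_right ?_ (by positivity)
    rw [geom_sum_eq (by norm_num)]
    have h3 : (0 : ℝ) ≤ (1 / 2) ^ (m + 1) := by positivity
    rw [div_le_iff_of_neg (by norm_num)]
    linarith
  · have h1 : (range (w + 1)).filter (fun t => t + r0 ≤ w) = ∅ := by
      apply filter_eq_empty_iff.2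
      intro t _ h2
      omega
    rw [h1, sum_empty]
    positivity

end Pool.Agent.H.MP_cba12a_lc.SR
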