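import Pool.Agent.H.MP_cba12a_lc.SR.Defs

/-!
The set of the satisfied terms is rarely an unlikely one.
-/

namespace Pool.Agent.H.MP_cba12a_lc.SR

open Finset

variable {n s : ℕ}

/-- the probability of an event as the average of its indicator -/
theorem Siz_pr_eq (P : (Fin n → Bool) → Prop) : pr P = (∑ x, ind (P x)) / 2 ^ n := by
  classical
  have hp : (2 : ℝ) ^ n ≠ 0 := by positivity
  have h1 := sum_bR P (fun x => decide (P x)) fun x => decide_eq_true_iff
  rw [eq_div_iff hp, ← h1]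
  refine sum_congr rfl fun x _ => ?_
  unfold ind bR
  by_cases hx : P x <;> simp [hx]

theorem Siz_pr_false : pr (fun _ : Fin n → Bool => False) = 0 := by
  rw [Siz_pr_eq]
  unfold ind
  simp

theorem Siz_pr_true : pr (fun _ : Fin n → Bool => True) = 1 := by
  rw [Siz_pr_eq]
  unfold ind
  simp

theorem Siz_pK_nonneg (S : Fin s → Finset (Fin n)) (σ : Fin s → Fin n → Bool)
    (K : Finset (Fin s)) : 0 ≤ pK S σ K := pr_nonneg _

theorem Siz_sum_pK (S : Fin s → Finset (Fin n)) (σ : Fin s → Fin n → Bool) :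
    ∑ K, pK S σ K = (∑ x, (2 : ℝ) ^ (Nst S σ x).card) / 2 ^ n := by
  classical
  have h : ∀ K, pK S σ K = (∑ x, ind (K ⊆ Nst S σ x)) / 2 ^ n := fun K => by
    unfold pK
    exact Siz_pr_eq _
  rw [sum_congr rfl fun K _ => h K, ← sum_div, sum_comm]
  congr 1
  refine sum_congr rfl fun x _ => ?_
  unfold ind
  have e : ∑ K : Finset (Fin s), (if K ⊆ Nst S σ x then (1 : ℝ) else 0) =
      (((univ : Finset (Finset (Fin s))).filter fun K => K ⊆ Nst S σ x).card : ℝ) := by
    rw [sum_ite, sum_const_zero, add_zero, sum_const, nsmul_eq_mul, mul_one]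
  have e2 : ((univ : Finset (Finset (Fin s))).filter fun K => K ⊆ Nst S σ x) =
      (Nst S σ x).powerset := by
    ext K
    simp
  rw [e2, card_powerset] at e
  rw [← Nat.cast_ofNat, ← Nat.cast_pow]
  rw [← e]
  refine sum_congr rfl fun K _ => ?_
  by_cases hK : K ⊆ Nst S σ x
  · rw [if_pos hK, if_pos hK]
  · rw [if_neg hK, if_neg hK]

/-
PROOF. Write `N x = Nst S σ x`. The probability on the left is
`∑ K, (if mK S σ K < τ * pK S σ K then mK S σ K else 0)` (the events `N x = K` are disjoint;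
`≤` suffices: `pr_le_sum` over `univ` with the events `N x = K ∧ mK S σ K < τ * pK S σ K`), hence
at most `τ * ∑ K, pK S σ K` (`pK ≥ 0`), and `∑ K, pK S σ K = (∑ x, #{K | K ⊆ N x}) / 2 ^ n =
(∑ x, 2 ^ (N x).card) / 2 ^ n` (write `pK` as `(∑ x, ind (K ⊆ N x)) / 2 ^ n` by `sum_bR`, swap the
sums, `Finset.card_powerset`).
-/
theorem pr_small_le (S : Fin s → Finset (Fin n)) (σ : Fin s → Fin n → Bool) (τ : ℝ)
    (hτ : 0 ≤ τ) :
    pr (fun x => mK S σ (Nst S σ x) < τ * pK S σ (Nst S σ x)) ≤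
      τ * ((∑ x, (2 : ℝ) ^ (Nst S σ x).card) / 2 ^ n) := by
  classical
  rw [← Siz_sum_pK, mul_sum]
  refine (pr_le_sum univ _ (fun K x => Nst S σ x = K ∧ mK S σ K < τ * pK S σ K)
    fun x hx => ⟨Nst S σ x, mem_univ _, rfl, hx⟩).trans ?_
  refine sum_le_sum fun K _ => ?_
  by_cases hK : mK S σ K < τ * pK S σ K
  · refine le_trans ?_ hK.le
    unfold mK
    exact pr_mono fun x hx => hx.1
  · have h0 : pr (fun x => Nst S σ x = K ∧ mK S σ K < τ * pK S σ K) ≤ 0 := by
      rw [← Siz_pr_false (n := n)]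
      exact pr_mono fun x hx => hK hx.2
    exact h0.trans (mul_nonneg hτ (Siz_pK_nonneg S σ K))

/-
PROOF. All `y` which agree with `x` on `U = K.biUnion S` satisfy `K ⊆ Nst S σ y` (for `j ∈ K`,
`i ∈ S j`: `y i = x i = σ j i`), so `pK ≥ pr (fun y => On x U y) = (1 / 2) ^ U.card` (`pr_on` with
`Q = True`), and `U.card ≤ ∑ j ∈ K, (S j).card ≤ m0 * W` (`Finset.card_biUnion_le`).
-/
theorem pK_ge (S : Fin s → Finset (Fin n)) (σ : Fin s → Fin n → Bool) (x : Fin n → Bool)
    (K : Finset (Fin s)) (hK : K ⊆ Nst S σ x) (W m0 : ℕ) (hW : ∀ j ∈ K, (S j).card ≤ W)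
    (hc : K.card ≤ m0) : (1 / 2) ^ (m0 * W) ≤ pK S σ K := by
  classical
  have hU : (K.biUnion S).card ≤ m0 * W := by
    refine card_biUnion_le.trans ?_
    refine (sum_le_sum hW).trans ?_
    rw [sum_const, smul_eq_mul]
    exact Nat.mul_le_mul_right W hc
  have h1 : (1 / 2 : ℝ) ^ (m0 * W) ≤ (1 / 2) ^ (K.biUnion S).card :=
    pow_le_pow_of_le_one (by norm_num) (by norm_num) hU
  have h2 := pr_on x (K.biUnion S) (fun _ => True)
  rw [Siz_pr_true, mul_one] at h2
  rw [← h2] at h1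
  refine h1.trans ?_
  unfold pK
  refine pr_mono fun y hy j hj => mem_Nst.2 fun i hi => ?_
  rw [hy.1 i (mem_biUnion.2 ⟨j, hj, hi⟩)]
  exact mem_Nst.1 (hK hj) i hi

end Pool.Agent.H.MP_cba12a_lc.SR
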