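import Pool.Agent.H.MP_cba12a_lc.SR.Defs

/-!
Existence of a good set.
-/

namespace Pool.Agent.H.MP_cba12a_lc.SR

open Finset

/-
PROOF. Strong induction on `N.card`. If `∑ K' ∈ N.ssubsets.filter Nonempty, m K' ≤ m N / 2`, take
`K = N` (`(1 / 2) ^ k * m N ≤ m N`). Otherwise the sum, which has at most `2 ^ N.card ≤ 2 ^ m0`
terms, is `> m N / 2`, so some nonempty `K' ⊂ N` has `m K' ≥ (1 / 2) ^ (m0 + 1) * m N` (else the
sum would be at most `2 ^ m0 * (1 / 2) ^ (m0 + 1) * m N`; use `Finset.exists_lt_of_sum_lt` or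
argue by contradiction with `Finset.sum_le_card_nsmul`). By induction there is `K ⊆ K'` with
`m K ≥ (1 / 2) ^ ((m0 + 1) * K'.card) * m K' ≥ (1 / 2) ^ ((m0 + 1) * K'.card + (m0 + 1)) * m N`,
and `K'.card + 1 ≤ N.card`.
-/
theorem exists_good {ι : Type} [DecidableEq ι] (m : Finset ι → ℝ) (hm : ∀ K, 0 ≤ m K) (m0 : ℕ)
    (N : Finset ι) (hN : N.Nonempty) (hc : N.card ≤ m0) :
    ∃ K, K ⊆ N ∧ K.Nonempty ∧ (1 / 2) ^ ((m0 + 1) * N.card) * m N ≤ m K ∧
      ∑ K' ∈ K.ssubsets.filter (fun K' => K'.Nonempty), m K' ≤ m K / 2 := by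
  induction hk : N.card using Nat.strong_induction_on generalizing N with
  | _ k ih =>
    by_cases hs : ∑ K' ∈ N.ssubsets.filter (fun K' => K'.Nonempty), m K' ≤ m N / 2
    · refine ⟨N, Subset.refl N, hN, ?_, hs⟩
      have h1 : ((1 : ℝ) / 2) ^ ((m0 + 1) * k) ≤ 1 := pow_le_one₀ (by norm_num) (by norm_num)
      have h2 := mul_le_mul_of_nonneg_right h1 (hm N)
      rwa [one_mul] at h2
    · have h1 : ∃ K' ∈ N.ssubsets.filter (fun K' => K'.Nonempty),
          ((1 : ℝ) / 2) ^ (m0 + 1) * m N ≤ m K' := by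
        by_contra hcon
        push Not at hcon
        apply hs
        have h2 : (N.ssubsets.filter (fun K' => K'.Nonempty)).card ≤ 2 ^ m0 := by
          refine (card_filter_le _ _).trans ?_
          refine (card_le_card (fun K hK => mem_powerset.mpr (mem_ssubsets.mp hK).1)).trans ?_
          rw [card_powerset]
          exact Nat.pow_le_pow_right (by norm_num) hc
        have h3 := sum_le_card_nsmul (N.ssubsets.filter (fun K' => K'.Nonempty)) m
          (((1 : ℝ) / 2) ^ (m0 + 1) * m N) (fun K' hK' => (hcon K' hK').le)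
        refine h3.trans ?_
        rw [nsmul_eq_mul]
        have h4 : ((N.ssubsets.filter (fun K' => K'.Nonempty)).card : ℝ) ≤ 2 ^ m0 := by
          exact_mod_cast h2
        have h5 : 0 ≤ ((1 : ℝ) / 2) ^ (m0 + 1) * m N := mul_nonneg (by positivity) (hm N)
        refine (mul_le_mul_of_nonneg_right h4 h5).trans (le_of_eq ?_)
        rw [pow_succ, one_div, inv_pow]
        have h6 : (2 : ℝ) ^ m0 ≠ 0 := by positivity
        field_simp
      obtain ⟨K', hK', hle⟩ := h1
      obtain ⟨hss, hne⟩ := mem_filter.mp hK'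
      have hss' : K' ⊂ N := mem_ssubsets.mp hss
      have hlt : K'.card < k := hk ▸ card_lt_card hss'
      obtain ⟨K, hKK, hKn, hKm, hKs⟩ := ih K'.card hlt K' hne ((card_le_card hss'.1).trans hc) rfl
      refine ⟨K, hKK.trans hss'.1, hKn, ?_, hKs⟩
      have h2 : ((1 : ℝ) / 2) ^ ((m0 + 1) * k) ≤ (1 / 2) ^ ((m0 + 1) * K'.card) * (1 / 2) ^ (m0 + 1) := by
        rw [← pow_add]
        refine pow_le_pow_of_le_one (by norm_num) (by norm_num) ?_
        have h3 : (m0 + 1) * (K'.card + 1) ≤ (m0 + 1) * k := Nat.mul_le_mul_left _ hlt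
        linarith [h3, Nat.mul_succ (m0 + 1) K'.card]
      calc ((1 : ℝ) / 2) ^ ((m0 + 1) * k) * m N
          ≤ ((1 / 2) ^ ((m0 + 1) * K'.card) * (1 / 2) ^ (m0 + 1)) * m N :=
            mul_le_mul_of_nonneg_right h2 (hm N)
        _ = (1 / 2) ^ ((m0 + 1) * K'.card) * ((1 / 2) ^ (m0 + 1) * m N) := by ring
        _ ≤ (1 / 2) ^ ((m0 + 1) * K'.card) * m K' := mul_le_mul_of_nonneg_left hle (by positivity)
        _ ≤ m K := hKm

end Pool.Agent.H.MP_cba12a_lc.SR
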