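import Pool.Agent.H.MP_cba12a_lc.SR.Key
import Pool.Agent.H.MP_cba12a_lc.SR.Gset
import Pool.Agent.H.MP_cba12a_lc.SR.Siz
import Pool.Agent.H.MP_cba12a_lc.SR.Pre

/-!
Few points are lost.
-/

namespace Pool.Agent.H.MP_cba12a_lc.SR

open Finset

variable {n s : ℕ}

private theorem lost_av_le {F : (Fin s → Fin n → Bool) → ℝ} {c : ℝ} (h : ∀ σ, F σ ≤ c) :
    av F ≤ c := by
  unfold av
  have hp : (0 : ℝ) < Fintype.card (Fin s → Fin n → Bool) := by
    exact_mod_cast Fintype.card_pos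
  rw [div_le_iff₀ hp]
  calc ∑ σ, F σ ≤ ∑ _σ : Fin s → Fin n → Bool, c := sum_le_sum fun σ _ => h σ
    _ = c * Fintype.card (Fin s → Fin n → Bool) := by
        rw [sum_const, card_univ, nsmul_eq_mul, mul_comm]

private theorem lost_Z_nonneg (S : Fin s → Finset (Fin n)) : 0 ≤ Z S :=
  zero_le_one.trans (one_le_Z S)

private theorem lost_av_G (S : Fin s → Finset (Fin n)) :
    av (fun σ => (∑ x, (2 : ℝ) ^ (Nst S σ x).card) / 2 ^ n) = Z S := by
  have e : (fun σ : Fin s → Fin n → Bool => (∑ x, (2 : ℝ) ^ (Nst S σ x).card) / 2 ^ n) =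
      fun σ => (1 / 2 ^ n) * ∑ x, (2 : ℝ) ^ (Nst S σ x).card := by
    funext σ
    ring
  rw [e, av_mul_left, av_sum]
  have h : ∀ x : Fin n → Bool, av (fun σ => (2 : ℝ) ^ (Nst S σ x).card) = Z S := av_two_pow S
  rw [sum_congr rfl fun x _ => h x, sum_const, card_univ, Fintype.card_fun, Fintype.card_fin,
    Fintype.card_bool, nsmul_eq_mul]
  push_cast
  have hp : (2 : ℝ) ^ n ≠ 0 := by positivity
  field_simp

private theorem lost_pr_false {P : (Fin n → Bool) → Prop} (h : ∀ x, ¬ P x) : pr P ≤ 0 := by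
  have h1 := pr_le_sum (∅ : Finset ℕ) P (fun _ _ => False) fun x hx => absurd hx (h x)
  simpa using h1

/-- (a) a satisfied term is long -/
private theorem lost_a (S : Fin s → Finset (Fin n)) (W : ℕ) (σ : Fin s → Fin n → Bool) :
    pr (fun x => ∃ j ∈ Nst S σ x, W < (S j).card) ≤ s * (1 / 2) ^ (W + 1) := by
  classical
  have h1 : pr (fun x => ∃ j ∈ Nst S σ x, W < (S j).card) ≤
      ∑ j ∈ univ.filter (fun j => W < (S j).card), pr (fun x => On (σ j) (S j) x ∧ True) := by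
    refine pr_le_sum _ _ (fun j x => On (σ j) (S j) x ∧ True) ?_
    rintro x ⟨j, hj, hW⟩
    exact ⟨j, mem_filter.2 ⟨mem_univ j, hW⟩, mem_Nst.1 hj, trivial⟩
  refine h1.trans ?_
  have h2 : ∀ j ∈ univ.filter (fun j => W < (S j).card),
      pr (fun x => On (σ j) (S j) x ∧ True) ≤ (1 / 2 : ℝ) ^ (W + 1) := by
    intro j hj
    rw [pr_on]
    calc (1 / 2 : ℝ) ^ (S j).card * pr (fun _ => True) ≤ (1 / 2 : ℝ) ^ (S j).card * 1 :=
          mul_le_mul_of_nonneg_left (pr_le_one _) (by positivity)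
      _ = (1 / 2 : ℝ) ^ (S j).card := mul_one _
      _ ≤ (1 / 2 : ℝ) ^ (W + 1) :=
          pow_le_pow_of_le_one (by norm_num) (by norm_num) (mem_filter.1 hj).2
  refine (sum_le_card_nsmul _ _ _ h2).trans ?_
  rw [nsmul_eq_mul]
  refine mul_le_mul_of_nonneg_right ?_ (by positivity)
  have h3 := card_filter_le (univ : Finset (Fin s)) (fun j => W < (S j).card)
  rw [card_univ, Fintype.card_fin] at h3
  exact_mod_cast h3

/-- (b) many terms are satisfied -/
private theorem lost_b (S : Fin s → Finset (Fin n)) (m0 : ℕ) (σ : Fin s → Fin n → Bool) :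
    pr (fun x => m0 < (Nst S σ x).card) ≤
      (1 / 2) ^ (m0 + 1) * ((∑ x, (2 : ℝ) ^ (Nst S σ x).card) / 2 ^ n) := by
  classical
  have hp : (0 : ℝ) < 2 ^ n := by positivity
  have h1 := sum_bR (fun x => m0 < (Nst S σ x).card)
    (fun x => decide (m0 < (Nst S σ x).card)) fun x => decide_eq_true_iff
  rw [← mul_div_assoc, le_div_iff₀ hp, ← h1, mul_sum]
  refine sum_le_sum fun x _ => ?_
  unfold bR
  by_cases hx : m0 < (Nst S σ x).card
  · simp only [hx, decide_true, if_true]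
    have h2 : (2 : ℝ) ^ (m0 + 1) ≤ 2 ^ (Nst S σ x).card :=
      pow_le_pow_right₀ (by norm_num) hx
    calc (1 : ℝ) = (1 / 2) ^ (m0 + 1) * 2 ^ (m0 + 1) := by
          rw [← mul_pow]
          norm_num
      _ ≤ _ := mul_le_mul_of_nonneg_left h2 (by positivity)
  · simp only [hx, decide_false]
    positivity

/-- (d) the event for a set `K` of terms -/
private def LostEv (r0 : ℕ) (θ : ℝ) (S : Fin s → Finset (Fin n)) (K : Finset (Fin s))
    (σ : Fin s → Fin n → Bool) (x : Fin n → Bool) : Prop :=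
  ∃ hK : K.Nonempty, ∃ t ∈ (range ((S (K.min' hK)).card + 1)).filter
    (fun t => t + r0 ≤ (S (K.min' hK)).card), K ⊆ Nst S σ x ∧ Good S σ K ∧ 2 * θ ≤ mK S σ K ∧
      Blk θ (sdnf S σ) (σ (K.min' hK)) (S (K.min' hK)) (pre (S (K.min' hK)) t)

private theorem lost_d (S : Fin s → Finset (Fin n)) (r0 : ℕ) (θ : ℝ) (hr : 2 ≤ r0)
    (K : Finset (Fin s)) :
    av (fun σ => pr (LostEv r0 θ S K σ)) ≤ (∏ k ∈ K, q S k) * (2 * (1 / 2) ^ r0) := by
  have hq : 0 ≤ ∏ k ∈ K, q S k := prod_nonneg fun k _ => (q_pos S k).le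
  by_cases hK : K.Nonempty
  · have h1 : ∀ σ : Fin s → Fin n → Bool, pr (LostEv r0 θ S K σ) ≤
        ∑ t ∈ (range ((S (K.min' hK)).card + 1)).filter
          (fun t => t + r0 ≤ (S (K.min' hK)).card),
          pr (fun x => K ⊆ Nst S σ x ∧ Good S σ K ∧ 2 * θ ≤ mK S σ K ∧
            Blk θ (sdnf S σ) (σ (K.min' hK)) (S (K.min' hK)) (pre (S (K.min' hK)) t)) := by
      intro σ
      refine pr_le_sum _ _ (fun t x => K ⊆ Nst S σ x ∧ Good S σ K ∧ 2 * θ ≤ mK S σ K ∧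
            Blk θ (sdnf S σ) (σ (K.min' hK)) (S (K.min' hK)) (pre (S (K.min' hK)) t)) ?_
      rintro x ⟨_, t, ht, h⟩
      exact ⟨t, ht, h⟩
    refine (av_mono h1).trans ?_
    rw [av_sum]
    have h2 : ∀ t ∈ (range ((S (K.min' hK)).card + 1)).filter
          (fun t => t + r0 ≤ (S (K.min' hK)).card),
        av (fun σ => pr (fun x => K ⊆ Nst S σ x ∧ Good S σ K ∧ 2 * θ ≤ mK S σ K ∧
            Blk θ (sdnf S σ) (σ (K.min' hK)) (S (K.min' hK)) (pre (S (K.min' hK)) t))) ≤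
          (∏ k ∈ K, q S k) * (1 / 2) ^ ((S (K.min' hK)).card - t) := by
      intro t ht
      have ht2 := (mem_filter.1 ht).2
      have hc : (S (K.min' hK) \ pre (S (K.min' hK)) t).card = (S (K.min' hK)).card - t :=
        card_sdiff_pre _ t (by omega)
      have h3 := key S K (K.min' hK) (K.min'_mem hK) (pre (S (K.min' hK)) t)
        (pre_subset _ t) θ (by rw [hc]; omega)
      rw [hc] at h3
      exact h3
    refine (sum_le_sum h2).trans ?_
    rw [← mul_sum]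
    exact mul_le_mul_of_nonneg_left (sum_pre_le _ r0) hq
  · refine (lost_av_le (c := 0) fun σ => lost_pr_false fun x hx => hK hx.1).trans ?_
    positivity

/-
PROOF. Write `N = Nst S σ x`, `g = sdnf S σ`. The event `Lost r0 W θ S σ x` implies one of
(a) `∃ j ∈ N, W < (S j).card`. For each `σ`: `pr ≤ ∑ j with W < (S j).card, pr (j ∈ Nst S σ x)
  = ∑ q j ≤ s * (1 / 2) ^ (W + 1)` (`pr_le_sum`, `pr_on`: `j ∈ Nst S σ x ↔ On (σ j) (S j) x`).
(b) `m0 < N.card`. For each `σ`, `pr ≤ (1 / 2) ^ (m0 + 1) * ((∑ x, 2 ^ N.card) / 2 ^ n)` (Markov);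
  the average over `σ` of `(∑ x, 2 ^ (Nst S σ x).card) / 2 ^ n` is `Z S` (`av_sum`, `av_two_pow`).
(c) `mK S σ N < τ * pK S σ N`. By `pr_small_le` and again `av_two_pow`, the average is `≤ τ * Z S`.
(d) there are a nonempty `K` and `t` with `t + r0 ≤ (S j).card`, `j = K.min' _` (any fixed choice of
  an element of `K` works), such that `K ⊆ N`, `Good S σ K`, `2 * θ ≤ mK S σ K`,
  `Blk θ g (σ j) (S j) (pre (S j) t)`.
Indeed suppose not (a), (b), (c). `N` is nonempty; `exists_good (mK S σ) _ m0 N` gives `K ⊆ N`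
nonempty, `Good S σ K`, `mK S σ K ≥ (1 / 2) ^ ((m0 + 1) * N.card) * mK S σ N ≥
(1 / 2) ^ ((m0 + 1) * m0) * (τ * pK S σ N) ≥ (1 / 2) ^ ((m0 + 1) * m0) * τ * (1 / 2) ^ (m0 * W) ≥
2 * θ` (`pK_ge` with `K := N`). `j ∈ K ⊆ N`, so `¬ Fnd r0 W θ g (σ j) (S j)` by `Lost`, and
`(S j).card ≤ W`, so some `t` with `t + r0 ≤ (S j).card` has `Blk`.
Probability of (d): union over `K` (nonempty) and `t ∈ (range ((S j).card + 1)).filter (t + r0 ≤
(S j).card)`; each is at most `(∏ k ∈ K, q S k) * (1 / 2) ^ ((S j).card - t)` by `key`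
(`card_sdiff_pre`, `pre_subset`; `2 ≤ r0 ≤ (S j).card - t`); the sum over `t` is at most
`(∏ k ∈ K, q S k) * (2 * (1 / 2) ^ r0)` (`sum_pre_le`), the sum over `K` at most
`Z S * (2 * (1 / 2) ^ r0)` (`sum_prod_q`; the terms are nonnegative).
-/
theorem av_lost (S : Fin s → Finset (Fin n)) (m0 r0 W : ℕ) (τ θ : ℝ) (hτ : 0 ≤ τ)
    (hr : 2 ≤ r0) (hθ : 2 * θ ≤ (1 / 2) ^ ((m0 + 1) * m0 + m0 * W) * τ) :
    av (fun σ => pr fun x => Lost r0 W θ S σ x) ≤
      s * (1 / 2) ^ (W + 1) + Z S * ((1 / 2) ^ (m0 + 1) + τ + 2 * (1 / 2) ^ r0) := by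
  classical
  -- the four cases
  have hcase : ∀ (σ : Fin s → Fin n → Bool) (x : Fin n → Bool), Lost r0 W θ S σ x →
      (∃ j ∈ Nst S σ x, W < (S j).card) ∨ m0 < (Nst S σ x).card ∨
        mK S σ (Nst S σ x) < τ * pK S σ (Nst S σ x) ∨ ∃ K, LostEv r0 θ S K σ x := by
    intro σ x hL
    by_contra hcon
    push Not at hcon
    obtain ⟨ha, hb, hc, hd⟩ := hcon
    obtain ⟨K, hKN, hK, hKm, hgood⟩ := exists_good (mK S σ) (fun K => pr_nonneg _) m0
      (Nst S σ x) hL.1 hb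
    have hpK := pK_ge S σ x (Nst S σ x) (Subset.refl _) W m0 ha hb
    have h2θ : 2 * θ ≤ mK S σ K := by
      refine hθ.trans (le_trans ?_ hKm)
      calc (1 / 2 : ℝ) ^ ((m0 + 1) * m0 + m0 * W) * τ =
            (1 / 2) ^ ((m0 + 1) * m0) * (τ * (1 / 2) ^ (m0 * W)) := by
            rw [pow_add]
            ring
        _ ≤ (1 / 2) ^ ((m0 + 1) * (Nst S σ x).card) * (τ * pK S σ (Nst S σ x)) := by
            refine mul_le_mul ?_ ?_ (by positivity) (by positivity)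
            · exact pow_le_pow_of_le_one (by norm_num) (by norm_num)
                (Nat.mul_le_mul_left _ hb)
            · exact mul_le_mul_of_nonneg_left hpK hτ
        _ ≤ (1 / 2) ^ ((m0 + 1) * (Nst S σ x).card) * mK S σ (Nst S σ x) :=
            mul_le_mul_of_nonneg_left hc (by positivity)
    have hj := hKN (K.min'_mem hK)
    have hnf := hL.2 _ hj
    unfold Fnd at hnf
    push Not at hnf
    obtain ⟨t, ht, hblk⟩ := hnf (ha _ hj)
    exact hd K ⟨hK, t, mem_filter.2 ⟨mem_range.2 (by omega), ht⟩, hKN, hgood, h2θ, hblk⟩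
  have hpr : ∀ σ : Fin s → Fin n → Bool, pr (fun x => Lost r0 W θ S σ x) ≤
      s * (1 / 2) ^ (W + 1) + ((1 / 2) ^ (m0 + 1) * ((∑ x, (2 : ℝ) ^ (Nst S σ x).card) / 2 ^ n) +
        (τ * ((∑ x, (2 : ℝ) ^ (Nst S σ x).card) / 2 ^ n) +
          ∑ K : Finset (Fin s), pr (LostEv r0 θ S K σ))) := by
    intro σ
    refine (pr_le_add (hcase σ)).trans (add_le_add (lost_a S W σ) ?_)
    refine (pr_le_add fun x hx => hx).trans (add_le_add (lost_b S m0 σ) ?_)
    refine (pr_le_add fun x hx => hx).trans (add_le_add (pr_small_le S σ τ hτ) ?_)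
    refine pr_le_sum univ _ (fun K x => LostEv r0 θ S K σ x) ?_
    rintro x ⟨K, hK⟩
    exact ⟨K, mem_univ K, hK⟩
  refine (av_mono hpr).trans ?_
  have hB : av (fun σ => (1 / 2 : ℝ) ^ (m0 + 1) *
      ((∑ x, (2 : ℝ) ^ (Nst S σ x).card) / 2 ^ n)) = (1 / 2) ^ (m0 + 1) * Z S := by
    rw [av_mul_left, lost_av_G]
  have hC : av (fun σ => τ * ((∑ x, (2 : ℝ) ^ (Nst S σ x).card) / 2 ^ n)) = τ * Z S := by
    rw [av_mul_left, lost_av_G]
  rw [av_add, av_add, av_add, av_sum, hB, hC]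
  have hconst : av (fun _ : Fin s → Fin n → Bool => (s : ℝ) * (1 / 2) ^ (W + 1)) ≤
      s * (1 / 2) ^ (W + 1) := lost_av_le fun _ => le_refl _
  have hsum : ∑ K : Finset (Fin s), av (fun σ => pr (LostEv r0 θ S K σ)) ≤
      Z S * (2 * (1 / 2) ^ r0) := by
    refine (sum_le_sum fun K _ => lost_d S r0 θ hr K).trans ?_
    rw [← sum_mul, sum_prod_q]
  calc _ ≤ (s : ℝ) * (1 / 2) ^ (W + 1) +
        ((1 / 2) ^ (m0 + 1) * Z S + (τ * Z S + Z S * (2 * (1 / 2) ^ r0))) :=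
        add_le_add hconst (add_le_add le_rfl (add_le_add le_rfl hsum))
    _ = _ := by ring

end Pool.Agent.H.MP_cba12a_lc.SR
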