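import Pool.Agent.H.MP_cba12a_lc.Algo8

/-!
The learner: a breadth-first search over signed sets of variables which keeps the sets that have
an extension by one or two literals with a large coefficient, followed by the greedy cover.
-/

namespace Pool.Agent.H.MP_cba12a_lc.SR

open Pool.Agent.H.MP_5be563_lc.PT

/-- extensions by one literal with a larger variable -/
def ext1 (V : List Lit) (R : List Lit) : List (List Lit) :=
  (V.filter fun a => R.all fun l => decide (l.1 < a.1)).map fun a => a :: R

/-- some extension by one or two literals with larger variables has a large coefficient -/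
def alive (Θ : ℕ) (V : List Lit) (S : Samples) (R : List Lit) : Bool :=
  (ext1 V R).any fun R1 => heavy Θ S R1 || (ext1 V R1).any fun R2 => heavy Θ S R2

/-- the lists kept at the next level -/
def nxtS (Θ : ℕ) (V : List Lit) (S : Samples) (L : List (List Lit)) : List (List Lit) :=
  (L.flatMap fun R => ext1 V R).filter fun R => alive Θ V S R

/-- one level of the search -/
def levS (N Θ : ℕ) (V : List Lit) (S : Samples) (L : List (List Lit)) : List (List Lit) :=
  if (nxtS Θ V S L).length ≤ N then nxtS Θ V S L else []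

/-- the lists of level `j`, with `j` elements -/
def lvlS (N Θ : ℕ) (V : List Lit) (S : Samples) (j : ℕ) : List (List Lit) :=
  (levS N Θ V S)^[j] [[]]

/-- the lists of all levels below `J` -/
def bfsS (N Θ J : ℕ) (V : List Lit) (S : Samples) : List (List Lit) :=
  (List.range J).flatMap fun j => lvlS N Θ V S j

/-- the candidates: a kept list and at most `r` further literals -/
def candS (r N Θ J : ℕ) (V : List Lit) (S : Samples) : List (List Lit) :=
  (seeds N r V).flatMap fun Z => (bfsS N Θ J V S).map fun R => R ++ Z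

/-- the learner -/
def coreS (r K B R N Θ J n : ℕ) (S : Samples) : List (List Lit) :=
  greedy8 K B R S (candS r N Θ J (allLits n) S)

/-! ### Size invariants -/

theorem mem_ext1 {V R C : List Lit} (h : C ∈ ext1 V R) : ∃ a ∈ V,
    (∀ l ∈ R, l.1 < a.1) ∧ C = a :: R := by
  unfold ext1 at h
  obtain ⟨a, ha, rfl⟩ := List.mem_map.1 h
  rw [List.mem_filter, List.all_eq_true] at ha
  exact ⟨a, ha.1, fun l hl => of_decide_eq_true (ha.2 l hl), rfl⟩

theorem ext1_mem {V R : List Lit} {a : Lit} (ha : a ∈ V) (h : ∀ l ∈ R, l.1 < a.1) :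
    a :: R ∈ ext1 V R := by
  unfold ext1
  refine List.mem_map.2 ⟨a, ?_, rfl⟩
  rw [List.mem_filter, List.all_eq_true]
  exact ⟨ha, fun l hl => decide_eq_true (h l hl)⟩

theorem bd_lvlS (N Θ : ℕ) (V : List Lit) (S : Samples) (j : ℕ) :
    Bd (N + 1) j V (lvlS N Θ V S j) := by
  unfold lvlS
  induction j with
  | zero =>
    refine ⟨by simp, ?_⟩
    intro C hC
    simp only [Function.iterate_zero, id_eq, List.mem_cons, List.not_mem_nil, or_false] at hC
    subst hC
    simp
  | succ j ih =>
    rw [Function.iterate_succ_apply']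
    generalize (levS N Θ V S)^[j] [[]] = L at ih ⊢
    unfold levS
    split_ifs with h
    · refine ⟨by omega, ?_⟩
      intro C hC
      unfold nxtS at hC
      obtain ⟨R, hR, hC⟩ := List.mem_flatMap.1 (List.mem_filter.1 hC).1
      obtain ⟨a, ha, _, rfl⟩ := mem_ext1 hC
      have h1 := ih.2 R hR
      refine ⟨by simp only [List.length_cons]; omega, ?_⟩
      intro l hl
      rcases List.mem_cons.1 hl with rfl | hl
      · exact ha
      · exact h1.2 l hl
    · exact ⟨by simp, by simp⟩

section poly

variable {β : Type} [Enc β]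

@[fun_prop]
theorem poly_ext1 {V R : β → List Lit} (hV : Poly V) (hR : Poly R) :
    Poly (fun p => ext1 (V p) (R p)) := by
  unfold ext1
  fun_prop

@[fun_prop]
theorem poly_alive {Θ : β → ℕ} {V : β → List Lit} {S : β → Samples} {R : β → List Lit}
    (hΘ : Poly Θ) (hV : Poly V) (hS : Poly S) (hR : Poly R) :
    Poly (fun p => alive (Θ p) (V p) (S p) (R p)) := by
  unfold alive
  fun_prop

@[fun_prop]
theorem poly_nxtS {Θ : β → ℕ} {V : β → List Lit} {S : β → Samples} {L : β → List (List Lit)}
    (hΘ : Poly Θ) (hV : Poly V) (hS : Poly S) (hL : Poly L) :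
    Poly (fun p => nxtS (Θ p) (V p) (S p) (L p)) := by
  unfold nxtS
  fun_prop

@[fun_prop]
theorem poly_levS {N Θ : β → ℕ} {V : β → List Lit} {S : β → Samples} {L : β → List (List Lit)}
    (hN : Poly N) (hΘ : Poly Θ) (hV : Poly V) (hS : Poly S) (hL : Poly L) :
    Poly (fun p => levS (N p) (Θ p) (V p) (S p) (L p)) := by
  unfold levS
  fun_prop

@[fun_prop]
theorem poly_lvlS {N Θ J : β → ℕ} {V : β → List Lit} {S : β → Samples}
    (hN : Poly N) (hΘ : Poly Θ) (hV : Poly V) (hS : Poly S) (hJ : Poly J) :
    Poly (fun p => lvlS (N p) (Θ p) (V p) (S p) (J p)) := by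
  unfold lvlS
  refine Poly.iterate (f := fun p L => levS (N p) (Θ p) (V p) (S p) L)
    (s := fun _ => [[]]) (n := J)
    (B := fun p => (sz (N p) + 1) * ((sz (J p)) * (sz (V p) + 1) + 2) + 1)
    (by fun_prop) (by fun_prop) hJ ?_ ?_
  · exact ((hN.sz_le.add (PBdd.const 1)).mul (((hJ.sz_le.mul
      (hV.sz_le.add (PBdd.const 1))).add (PBdd.const 2)))).add (PBdd.const 1)
  · intro p j hj
    have h := (bd_lvlS (N p) (Θ p) (V p) (S p) j).mono (m' := sz (N p) + 1)
      (k' := sz (J p)) (by
        simp only [sz_nat]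
        omega) (by
        simp only [sz_nat]
        omega)
    exact h.sz_le

@[fun_prop]
theorem poly_bfsS {N Θ J : β → ℕ} {V : β → List Lit} {S : β → Samples}
    (hN : Poly N) (hΘ : Poly Θ) (hV : Poly V) (hS : Poly S) (hJ : Poly J) :
    Poly (fun p => bfsS (N p) (Θ p) (J p) (V p) (S p)) := by
  unfold bfsS
  fun_prop

@[fun_prop]
theorem poly_candS {r N Θ J : β → ℕ} {V : β → List Lit} {S : β → Samples} (hr : Poly r)
    (hN : Poly N) (hΘ : Poly Θ) (hV : Poly V) (hS : Poly S) (hJ : Poly J) :
    Poly (fun q => candS (r q) (N q) (Θ q) (J q) (V q) (S q)) := by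
  unfold candS
  fun_prop

@[fun_prop]
theorem poly_coreS {r K B R N Θ J n : β → ℕ} {S : β → Samples} (hr : Poly r)
    (hK : Poly K) (hB : Poly B) (hR : Poly R) (hN : Poly N) (hΘ : Poly Θ)
    (hJ : Poly J) (hn : Poly n) (hS : Poly S) :
    Poly (fun q => coreS (r q) (K q) (B q) (R q) (N q) (Θ q) (J q) (n q) (S q)) := by
  unfold coreS
  fun_prop

end poly

end Pool.Agent.H.MP_cba12a_lc.SR
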