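import Pool.Agent.H.MP_cba12a_lc.SR.Alg
import Pool.Agent.H.MP_cba12a_lc.SR.Cnt

/-!
The number of lists kept at a level of the search.
-/

namespace Pool.Agent.H.MP_cba12a_lc.SR

open Finset

variable {n m : ℕ}

/-! ### Signed lists -/

/-- A list with decreasing variables has an orientation. -/
theorem exists_ori {R : List Lit} (hd : Dec8 R) (hn : ∀ l ∈ R, l.1 < n) :
    ∃ o : Fin n → Bool, Ori o R := by
  classical
  refine ⟨fun i => decide (((i : ℕ), true) ∈ R), fun l hl => ?_⟩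
  refine ⟨⟨l.1, hn l hl⟩, ?_⟩
  have hnd := hd.nodup
  obtain ⟨v, b⟩ := l
  cases b with
  | false =>
    have h : (v, true) ∉ R := by
      intro hc
      have := List.inj_on_of_nodup_map hnd hl hc rfl
      simp at this
    simp [h]
  | true => simp [hl]

theorem dec8_cons {R : List Lit} {a : Lit} (hd : Dec8 R) (h : ∀ l ∈ R, l.1 < a.1) :
    Dec8 (a :: R) := by
  unfold Dec8 at *
  rw [List.map_cons, List.pairwise_cons]
  refine ⟨?_, hd⟩
  intro c hc
  obtain ⟨l, hl, rfl⟩ := List.mem_map.1 hc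
  exact h l hl

/-- the first `k` signs of a list -/
def sgn (k : ℕ) (R : List Lit) : Fin k → Bool := fun i => ((R[(i : ℕ)]?).map Prod.snd).getD false

theorem code_inj {k : ℕ} {R R' : List Lit} (hR : ∀ l ∈ R, l.1 < n) (hR' : ∀ l ∈ R', l.1 < n)
    (hd : Dec8 R) (hd' : Dec8 R') (hk : R.length ≤ k) (h1 : fs n R = fs n R')
    (h2 : sgn k R = sgn k R') : R = R' := by
  have key : ∀ {A B : List Lit}, (∀ l ∈ A, l.1 < n) → fs n A = fs n B → ∀ a, a ∈ A.map Prod.fst →
      a ∈ B.map Prod.fst := by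
    intro A B hA hAB a ha
    obtain ⟨l, hl, rfl⟩ := List.mem_map.1 ha
    have h1 : (⟨l.1, hA l hl⟩ : Fin n) ∈ fs n A := mem_fs.2 ha
    rw [hAB] at h1
    exact mem_fs.1 h1
  have h3 : R.map Prod.fst = R'.map Prod.fst :=
    List.SortedGT.eq_of_mem_iff (List.sortedGT_iff_pairwise.2 hd)
      (List.sortedGT_iff_pairwise.2 hd') fun a => ⟨key hR h1 a, key hR' h1.symm a⟩
  have hlen : R.length = R'.length := by
    have := congrArg List.length h3
    simpa using this
  refine List.ext_getElem hlen fun i hi hi' => ?_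
  have h4 : R[i].1 = R'[i].1 := by
    have h5 : (R.map Prod.fst)[i]'(by simpa using hi) = (R'.map Prod.fst)[i]'(by simpa using hi') :=
      by simp only [h3]
    simpa using h5
  have h6 : R[i].2 = R'[i].2 := by
    have h7 := congrFun h2 ⟨i, by omega⟩
    unfold sgn at h7
    simpa [hi, hi'] using h7
  exact Prod.ext h4 h6

theorem card_large_abs {o : Fin n → Bool} {g : (Fin n → Bool) → Bool}
    {𝓡 : Finset (Finset (Fin n))} {θ : ℝ} (hθ : 0 < θ) (h : ∀ R ∈ 𝓡, θ ≤ |co o g R|) :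
    (𝓡.card : ℝ) * θ ^ 2 ≤ 1 := by
  calc (𝓡.card : ℝ) * θ ^ 2 = ∑ _R ∈ 𝓡, θ ^ 2 := by rw [sum_const, nsmul_eq_mul]
    _ ≤ ∑ R ∈ 𝓡, co o g R ^ 2 := sum_le_sum fun R hR => by
        rw [← sq_abs (co o g R)]
        exact pow_le_pow_left₀ hθ.le (h R hR) 2
    _ ≤ 1 := bessel o g 𝓡

theorem alive_spec {Θ : ℕ} {S : Samples} {R : List Lit} (hd : Dec8 R) (hn : ∀ l ∈ R, l.1 < n)
    (h : alive Θ (allLits n) S R = true) : ∃ R', Dec8 R' ∧ (∀ l ∈ R', l.1 < n) ∧
      heavy Θ S R' = true ∧ R'.length ≤ R.length + 2 ∧ R = R'.drop (R'.length - R.length) := by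
  unfold alive at h
  rw [List.any_eq_true] at h
  obtain ⟨R1, hR1, h⟩ := h
  obtain ⟨a, ha, hal, rfl⟩ := mem_ext1 hR1
  have hd1 := dec8_cons hd hal
  have hn1 : ∀ l ∈ a :: R, l.1 < n := by
    intro l hl
    rcases List.mem_cons.1 hl with rfl | hl
    · exact mem_allLits.1 ha
    · exact hn l hl
  rw [Bool.or_eq_true, List.any_eq_true] at h
  rcases h with h | ⟨R2, hR2, h⟩
  · refine ⟨a :: R, hd1, hn1, h, by simp, ?_⟩
    simp
  · obtain ⟨b, hb, hbl, rfl⟩ := mem_ext1 hR2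
    refine ⟨b :: a :: R, dec8_cons hd1 hbl, ?_, h, by simp, ?_⟩
    · intro l hl
      rcases List.mem_cons.1 hl with rfl | hl
      · exact mem_allLits.1 hb
      · exact hn1 l hl
    · have : (b :: a :: R).length - R.length = 2 := by
        simp only [List.length_cons]
        omega
      rw [this]
      rfl

section

variable {N Θ : ℕ} {S : Samples} {g : (Fin n → Bool) → Bool}

theorem length_alive_le {j : ℕ} {L : List (List Lit)} (hΘ : 0 < Θ) (hL : L.Nodup)
    (hLd : ∀ R ∈ L, Dec8 R ∧ (∀ l ∈ R, l.1 < n) ∧ R.length = j)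
    (ha : ∀ R ∈ L, alive Θ (allLits n) S R = true)
    (hheavy : ∀ (o : Fin n → Bool) (R : List Lit), Ori o R → (R.map Prod.fst).Nodup →
      heavy Θ S R = true → 1 / (2 * (Θ : ℝ)) ≤ co o g (fs n R)) :
    L.length ≤ 4 * Θ ^ 2 * 2 ^ (j + 2) := by
  classical
  have hΘ' : (0 : ℝ) < Θ := by exact_mod_cast hΘ
  set 𝓡 : Finset (Finset (Fin n)) :=
    univ.filter fun U => 1 / (2 * (Θ : ℝ)) ≤ |co (fun _ => true) g U| with h𝓡
  have h1 : 𝓡.card ≤ 4 * Θ ^ 2 := by
    have h3 := card_large_abs (o := fun _ => true) (g := g) (𝓡 := 𝓡)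
      (θ := 1 / (2 * (Θ : ℝ))) (by positivity) (fun R hR => (mem_filter.1 hR).2)
    rw [one_div_pow, mul_one_div, div_le_one (by positivity)] at h3
    have h4 : (𝓡.card : ℝ) ≤ ((4 * Θ ^ 2 : ℕ) : ℝ) := by
      push_cast
      linarith [mul_pow (2 : ℝ) Θ 2]
    exact_mod_cast h4
  have hex : ∀ R, ∃ R' : List Lit, R ∈ L → (Dec8 R' ∧ (∀ l ∈ R', l.1 < n) ∧
      heavy Θ S R' = true ∧ R'.length ≤ R.length + 2 ∧ R = R'.drop (R'.length - R.length)) := by
    intro R
    by_cases hR : R ∈ L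
    · obtain ⟨R', h⟩ := alive_spec (hLd R hR).1 (hLd R hR).2.1 (ha R hR)
      exact ⟨R', fun _ => h⟩
    · exact ⟨[], fun h => absurd h hR⟩
  choose F hF using hex
  have hcard := card_le_card_of_injOn (s := L.toFinset)
    (t := 𝓡 ×ˢ (univ : Finset (Fin (j + 2) → Bool)))
    (fun R => (fs n (F R), sgn (j + 2) (F R))) (by
      intro R hR
      rw [mem_coe, List.mem_toFinset] at hR
      obtain ⟨g1, g2, g3, g4, g5⟩ := hF R hR
      rw [mem_coe, mem_product]
      refine ⟨?_, mem_univ _⟩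
      rw [h𝓡, mem_filter]
      refine ⟨mem_univ _, ?_⟩
      obtain ⟨o, ho⟩ := exists_ori g1 g2
      have h5 := hheavy o (F R) ho g1.nodup g3
      rw [abs_co_eq (fun _ => true) o]
      exact h5.trans (le_abs_self _)) (by
      intro R hR R1 hR1 heq
      rw [mem_coe, List.mem_toFinset] at hR hR1
      obtain ⟨g1, g2, g3, g4, g5⟩ := hF R hR
      obtain ⟨k1, k2, k3, k4, k5⟩ := hF R1 hR1
      have e1 := (hLd R hR).2.2
      have e2 := (hLd R1 hR1).2.2
      rw [Prod.mk.injEq] at heq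
      have h6 := code_inj (k := j + 2) g2 k2 g1 k1 (by omega) heq.1 heq.2
      rw [g5, k5, e1, e2, h6])
  rw [List.toFinset_card_of_nodup hL, card_product, card_univ, Fintype.card_fun,
    Fintype.card_fin, Fintype.card_bool] at hcard
  exact hcard.trans (Nat.mul_le_mul_right _ h1)

theorem nodup_nxtS {V : List Lit} {L : List (List Lit)} (hV : V.Nodup) (hL : L.Nodup) :
    (nxtS Θ V S L).Nodup := by
  unfold nxtS
  refine List.Nodup.filter _ ?_
  rw [List.nodup_flatMap]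
  constructor
  · intro R _
    unfold ext1
    refine (hV.filter _).map ?_
    intro b b' h
    exact (List.cons.inj h).1
  · refine List.Pairwise.imp ?_ hL
    intro R R' hRR'
    change List.Disjoint _ _
    intro C hC hC'
    obtain ⟨a, _, _, rfl⟩ := mem_ext1 hC
    obtain ⟨a', _, _, h⟩ := mem_ext1 hC'
    exact hRR' (List.cons.inj h).2

theorem mem_nxtS {L : List (List Lit)} {j : ℕ}
    (hL : ∀ R ∈ L, Dec8 R ∧ (∀ l ∈ R, l.1 < n) ∧ R.length = j) :
    ∀ R ∈ nxtS Θ (allLits n) S L, Dec8 R ∧ (∀ l ∈ R, l.1 < n) ∧ R.length = j + 1 := by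
  intro C hC
  unfold nxtS at hC
  obtain ⟨R, hR, hC⟩ := List.mem_flatMap.1 (List.mem_filter.1 hC).1
  obtain ⟨a, ha, hal, rfl⟩ := mem_ext1 hC
  obtain ⟨h1, h2, h3⟩ := hL R hR
  refine ⟨dec8_cons h1 hal, ?_, by rw [List.length_cons, h3]⟩
  intro l hl
  rcases List.mem_cons.1 hl with rfl | hl
  · exact mem_allLits.1 ha
  · exact h2 l hl

theorem lvlS_succ (V : List Lit) (j : ℕ) :
    lvlS N Θ V S (j + 1) = levS N Θ V S (lvlS N Θ V S j) := by
  unfold lvlS
  rw [Function.iterate_succ_apply']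

theorem lvlS_spec (j : ℕ) :
    (lvlS N Θ (allLits n) S j).Nodup ∧ ∀ R ∈ lvlS N Θ (allLits n) S j,
      Dec8 R ∧ (∀ l ∈ R, l.1 < n) ∧ R.length = j := by
  induction j with
  | zero =>
    unfold lvlS
    rw [Function.iterate_zero, id]
    refine ⟨by simp, ?_⟩
    intro R hR
    rw [List.mem_singleton] at hR
    subst hR
    refine ⟨by simp [Dec8], by simp, by simp⟩
  | succ j ih =>
    rw [lvlS_succ]
    unfold levS
    split_ifs with h
    · exact ⟨nodup_nxtS (nodup_allLits n) ih.1, mem_nxtS ih.2⟩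
    · exact ⟨by simp, by simp⟩

theorem lvlS_succ_eq {W : ℕ} (hΘ : 0 < Θ)
    (hheavy : ∀ (o : Fin n → Bool) (R : List Lit), Ori o R → (R.map Prod.fst).Nodup →
      heavy Θ S R = true → 1 / (2 * (Θ : ℝ)) ≤ co o g (fs n R))
    (hN : 4 * Θ ^ 2 * 2 ^ (W + 2) ≤ N) (j : ℕ) (hj : j + 1 ≤ W) :
    lvlS N Θ (allLits n) S (j + 1) = nxtS Θ (allLits n) S (lvlS N Θ (allLits n) S j) := by
  rw [lvlS_succ]
  have ih := lvlS_spec (n := n) (N := N) (Θ := Θ) (S := S) j
  have h1 := length_alive_le (g := g) hΘ (nodup_nxtS (nodup_allLits n) ih.1) (mem_nxtS ih.2)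
    (by
      intro R hR
      unfold nxtS at hR
      exact (List.mem_filter.1 hR).2) hheavy
  unfold levS
  rw [if_pos]
  refine h1.trans (le_trans ?_ hN)
  exact Nat.mul_le_mul_left _ (Nat.pow_le_pow_right (by norm_num) (by omega))

end

end Pool.Agent.H.MP_cba12a_lc.SR
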