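import Pool.Agent.H.MP_cba12a_lc.SR.Bfc
import Pool.Agent.H.MP_cba12a_lc.SR.Pre

/-!
The search finds every term which is never blocked.
-/

namespace Pool.Agent.H.MP_cba12a_lc.SR

open Finset

variable {n m : ℕ}

/-- flipping the orientation of one element of the set changes the sign of the coefficient -/
theorem co_flip (o : Fin n → Bool) (g : (Fin n → Bool) → Bool) (V : Finset (Fin n)) (b : Fin n)
    (hb : b ∈ V) : co (Function.update o b (!(o b))) g V = - co o g V := by
  have e : Function.update o b (!(o b)) = flp b o := by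
    funext i
    by_cases hi : i = b
    · subst hi
      rw [Function.update_self, flp_same]
    · rw [Function.update_of_ne hi, flp_ne hi]
  rw [e, co_change (flp b o) o, chi_flp_mem o hb, chi_on (fun _ _ => rfl)]
  ring

section

variable {N Θ : ℕ} {S : Samples} {g : (Fin n → Bool) → Bool}

theorem lst_congr {o o' : Fin n → Bool} {A : Finset (Fin n)} (h : ∀ i ∈ A, o i = o' i) :
    lst o A = lst o' A := by
  unfold lst
  refine List.map_congr_left fun i hi => ?_
  rw [h i ((mem_sort _).1 hi)]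

theorem lst_insert (o : Fin n → Bool) {A : Finset (Fin n)} {c : Fin n} (h : ∀ i ∈ A, i < c) :
    lst o (insert c A) = ((c : ℕ), o c) :: lst o A := by
  refine fs_inj (ori_lst _) ?_ (dec_lst _) ?_ ?_
  · intro l hl
    rcases List.mem_cons.1 hl with rfl | hl
    · exact ⟨c, rfl⟩
    · exact ori_lst _ l hl
  · refine dec8_cons (dec_lst _) ?_
    intro l hl
    obtain ⟨i, hi, rfl⟩ := mem_lst.1 hl
    exact h i hi
  · rw [fs_cons, fs_lst, fs_lst]

theorem lst_mem_ext1 (o : Fin n → Bool) {A : Finset (Fin n)} {c : Fin n} (h : ∀ i ∈ A, i < c)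
    (v : Bool) : (((c : ℕ), v) :: lst o A) ∈ ext1 (allLits n) (lst o A) := by
  refine ext1_mem (mem_allLits.2 c.2) ?_
  intro l hl
  obtain ⟨i, hi, rfl⟩ := mem_lst.1 hl
  exact h i hi

/-- Flipping the sign of one variable makes a coefficient nonnegative. -/
theorem exists_flip (o : Fin n → Bool) (g : (Fin n → Bool) → Bool) {V : Finset (Fin n)}
    {c : Fin n} (hc : c ∈ V) : ∃ o' : Fin n → Bool, (∀ i, i ≠ c → o' i = o i) ∧
      |co o g V| ≤ co o' g V := by
  rcases le_or_gt 0 (co o g V) with h | h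
  · exact ⟨o, fun _ _ => rfl, (abs_of_nonneg h).le⟩
  · refine ⟨flp c o, fun i hi => flp_ne hi o, ?_⟩
    rw [co_change (flp c o) o, chi_flp_mem o hc, chi_on (fun _ _ => rfl), abs_of_neg h]
    linarith

variable {o : Fin n → Bool} {θ : ℝ}

theorem alive_of_not_blk
    (hheavy : ∀ (o : Fin n → Bool) (R : List Lit), Ori o R → (R.map Prod.fst).Nodup →
      θ ≤ co o g (fs n R) → heavy Θ S R = true) {T A : Finset (Fin n)}
    (hA : ∀ i ∈ A, ∀ j ∈ T \ A, i < j) (h : ¬ Blk θ g o T A) :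
    alive Θ (allLits n) S (lst o A) = true := by
  unfold Blk at h
  push Not at h
  obtain ⟨C, hC, hC1, hC2, hbig⟩ := h
  -- a list over `insert c B`, with the sign of `c` chosen suitably
  have key : ∀ (B : Finset (Fin n)) (c : Fin n), (∀ i ∈ B, i < c) →
      θ ≤ |co o g (insert c B)| → ∃ v, heavy Θ S (((c : ℕ), v) :: lst o B) = true := by
    intro B c hB hco
    obtain ⟨o', h1, h2⟩ := exists_flip o g (mem_insert_self c B)
    refine ⟨o' c, ?_⟩
    have e : ((c : ℕ), o' c) :: lst o B = lst o' (insert c B) := by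
      rw [lst_insert o' hB]
      congr 1
      exact lst_congr fun i hi => (h1 i (hB i hi).ne).symm
    rw [e]
    refine hheavy o' _ (ori_lst _) (dec_lst _).nodup ?_
    rw [fs_lst]
    exact hco.trans h2
  unfold alive
  rw [List.any_eq_true]
  have hcase : C.card = 1 ∨ C.card = 2 := by omega
  rcases hcase with hc | hc
  · obtain ⟨c, rfl⟩ := card_eq_one.1 hc
    have hlt : ∀ i ∈ A, i < c := fun i hi => hA i hi c (hC (mem_singleton_self c))
    rw [union_comm, ← insert_eq] at hbig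
    obtain ⟨v, hv⟩ := key A c hlt hbig
    exact ⟨_, lst_mem_ext1 o hlt v, by rw [hv, Bool.true_or]⟩
  · obtain ⟨c, d, hlt, rfl⟩ : ∃ c d, c < d ∧ C = {c, d} := by
      obtain ⟨c, d, hne, rfl⟩ := card_eq_two.1 hc
      rcases lt_or_gt_of_ne hne with h | h
      · exact ⟨c, d, h, rfl⟩
      · exact ⟨d, c, h, pair_comm c d⟩
    have hc1 : ∀ i ∈ A, i < c := fun i hi => hA i hi c (hC (by simp))
    have hd1 : ∀ i ∈ insert c A, i < d := by
      intro i hi
      rcases mem_insert.1 hi with rfl | hi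
      · exact hlt
      · exact hA i hi d (hC (by simp))
    have e : A ∪ {c, d} = insert d (insert c A) := by
      ext i
      simp only [mem_union, mem_insert, mem_singleton]
      tauto
    rw [e] at hbig
    obtain ⟨v, hv⟩ := key (insert c A) d hd1 hbig
    refine ⟨_, lst_mem_ext1 o hc1 (o c), ?_⟩
    rw [Bool.or_eq_true, List.any_eq_true]
    right
    rw [← lst_insert o hc1]
    exact ⟨_, lst_mem_ext1 o hd1 v, hv⟩

theorem mem_lvlS {W r0 : ℕ} (hΘ : 0 < Θ)
    (hheavy : ∀ (o : Fin n → Bool) (R : List Lit), Ori o R → (R.map Prod.fst).Nodup →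
      heavy Θ S R = true → 1 / (2 * (Θ : ℝ)) ≤ co o g (fs n R))
    (hheavy' : ∀ (o : Fin n → Bool) (R : List Lit), Ori o R → (R.map Prod.fst).Nodup →
      θ ≤ co o g (fs n R) → heavy Θ S R = true)
    (hN : 4 * Θ ^ 2 * 2 ^ (W + 2) ≤ N) {T : Finset (Fin n)} (hF : Fnd r0 W θ g o T) (t : ℕ)
    (ht : t = 0 ∨ t + r0 ≤ T.card) :
    lst o (pre T t) ∈ lvlS N Θ (allLits n) S t := by
  obtain ⟨hW, hF⟩ := hF
  induction t with
  | zero =>
    rw [pre_zero]
    unfold lvlS
    rw [Function.iterate_zero, id]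
    have : lst o (∅ : Finset (Fin n)) = [] := by
      rw [← List.length_eq_zero_iff, length_lst, card_empty]
    rw [this]
    simp
  | succ t ih =>
    have ht' : t + 1 + r0 ≤ T.card := by omega
    have h1 := ih (by omega)
    rw [lvlS_succ_eq hΘ hheavy hN t (by omega)]
    unfold nxtS
    rw [List.mem_filter]
    obtain ⟨c, hc, hpc, hlt⟩ := exists_pre_succ T t (by omega)
    constructor
    · rw [List.mem_flatMap]
      refine ⟨_, h1, ?_⟩
      rw [hpc, lst_insert o hlt]
      exact lst_mem_ext1 o hlt (o c)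
    · exact alive_of_not_blk hheavy' (fun i hi j hj => pre_lt T (t + 1) hi hj) (hF (t + 1) ht')

/-- Every candidate is over the variables `0, ..., n - 1`. -/
theorem lt_candS {r J : ℕ} {C : List Lit} (hC : C ∈ candS r N Θ J (allLits n) S) :
    ∀ l ∈ C, l.1 < n := by
  unfold candS at hC
  obtain ⟨Z, hZ, hC⟩ := List.mem_flatMap.1 hC
  obtain ⟨R, hR, rfl⟩ := List.mem_map.1 hC
  intro l hl
  rcases List.mem_append.1 hl with hl | hl
  · unfold bfsS at hR
    obtain ⟨j, _, hR⟩ := List.mem_flatMap.1 hR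
    exact mem_allLits.1 (((bd_lvlS N Θ (allLits n) S j).2 R hR).2 l hl)
  · exact mem_allLits.1 (((bd_seeds N r (allLits n)).2 Z hZ).2 l hl)

theorem nil_mem_candS {r J : ℕ} (hJ : 1 ≤ J) (hNk : (2 * n + 1) ^ r ≤ N) :
    ([] : List Lit) ∈ candS r N Θ J (allLits n) S := by
  unfold candS
  rw [List.mem_flatMap]
  refine ⟨[], mem_seeds (by rw [length_allLits]; exact hNk) (by simp) (by simp), ?_⟩
  rw [List.mem_map]
  refine ⟨[], ?_, rfl⟩
  unfold bfsS
  rw [List.mem_flatMap]
  refine ⟨0, List.mem_range.2 hJ, ?_⟩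
  unfold lvlS
  simp

end

/-- **The candidates contain every term which is never blocked.** -/
theorem exists_candS {f g : (Fin n → Bool) → Bool} {o : Fin n → Bool} {ω : Fin m → Fin n → Bool}
    {τ θ : ℝ} {Θ N J r0 W : ℕ} {T : Finset (Fin n)} (hm : 0 < m) (hΘ : 0 < Θ)
    (hrepX : RepX f ω τ) (hfg : dst f g ≤ τ) (hτ : 8 * τ ≤ 1 / Θ) (hθ : 2 / Θ ≤ θ)
    (hN1 : 2 ^ (J + 4) * (4 * Θ ^ 2) ≤ N) (hN2 : (2 * n + 1) ^ r0 ≤ N) (hJ : W + 1 ≤ J)
    (hT : Fnd r0 W θ g o T) :
    ∃ C ∈ candS r0 N Θ J (allLits n) (smp f ω), ∀ l, l ∈ C ↔ ∃ i ∈ T, l = ((i : ℕ), o i) := by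
  have hN : 4 * Θ ^ 2 * 2 ^ (W + 2) ≤ N := by
    refine le_trans ?_ hN1
    rw [mul_comm]
    exact Nat.mul_le_mul_right _ (Nat.pow_le_pow_right (by norm_num) (by omega))
  have h1 := mem_lvlS (S := smp f ω) (g := g) (t := T.card - r0) hΘ
    (fun o R hR hnd => (heavy_spec hΘ hm hrepX hfg hτ hR hnd).1)
    (fun o R hR hnd h => (heavy_spec hΘ hm hrepX hfg hτ hR hnd).2 (hθ.trans h))
    hN hT (by omega)
  refine ⟨lst o (pre T (T.card - r0)) ++ lst o (T \ pre T (T.card - r0)), ?_, ?_⟩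
  · unfold candS
    rw [List.mem_flatMap]
    refine ⟨lst o (T \ pre T (T.card - r0)), mem_seeds (by rw [length_allLits]; exact hN2) ?_ ?_,
      List.mem_map.2 ⟨_, ?_, rfl⟩⟩
    · rw [length_lst, card_sdiff_pre T _ (by omega)]
      omega
    · intro l hl
      obtain ⟨i, _, rfl⟩ := mem_lst.1 hl
      exact mem_allLits.2 i.2
    · unfold bfsS
      rw [List.mem_flatMap]
      refine ⟨T.card - r0, List.mem_range.2 ?_, h1⟩
      have := hT.1
      omega
  · intro l
    rw [List.mem_append, mem_lst, mem_lst]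
    constructor
    · rintro (⟨i, hi, rfl⟩ | ⟨i, hi, rfl⟩)
      · exact ⟨i, pre_subset T _ hi, rfl⟩
      · exact ⟨i, (mem_sdiff.1 hi).1, rfl⟩
    · rintro ⟨i, hi, rfl⟩
      by_cases h : i ∈ pre T (T.card - r0)
      · exact Or.inl ⟨i, h, rfl⟩
      · exact Or.inr ⟨i, mem_sdiff.2 ⟨hi, h⟩, rfl⟩

end Pool.Agent.H.MP_cba12a_lc.SR
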