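import Pool.Agent.H.MP_cba12a_lc.SR.Defs

/-!
The contribution of a good set of terms to a coefficient.
-/

namespace Pool.Agent.H.MP_cba12a_lc.SR

open Finset

variable {n s : ℕ}

private theorem Dec_sum_ind (P : (Fin n → Bool) → Prop) : ∑ y, ind (P y) = pr P * 2 ^ n := by
  classical
  rw [← sum_bR P (fun y => decide (P y)) fun y => decide_eq_true_iff]
  refine sum_congr rfl fun y _ => ?_
  unfold ind bR
  by_cases hy : P y <;> simp [hy]

private theorem Dec_abs_chi (o : Fin n → Bool) (V : Finset (Fin n)) (y : Fin n → Bool) :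
    -1 ≤ chi o V y := by
  have h := chi_sq o V y
  nlinarith [sq_nonneg (chi o V y + 1), sq_nonneg (chi o V y - 1)]

private theorem Dec_point (S : Fin s → Finset (Fin n)) (σ : Fin s → Fin n → Bool)
    (K : Finset (Fin s)) (x : Fin n → Bool) (hne : K.Nonempty) (hK : K ⊆ Nst S σ x)
    (V : Finset (Fin n)) (hV : V ⊆ K.biUnion S) (y : Fin n → Bool) :
    bR (GK S σ K y) * chi x V y + ind (Nst S σ y = K) -
      ∑ K' ∈ K.ssubsets.filter (fun K' => K'.Nonempty), ind (Nst S σ y = K') ≤
      bR (sdnf S σ y) * chi x V y := by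
  classical
  have hs0 : 0 ≤ ∑ K' ∈ K.ssubsets.filter (fun K' => K'.Nonempty), ind (Nst S σ y = K') :=
    sum_nonneg fun K' _ => ind_nonneg _
  by_cases h1 : Nst S σ y ⊆ K
  · have hG : GK S σ K y = false := by
      rw [← Bool.not_eq_true, GK_iff, not_not]
      exact h1
    rw [hG]
    by_cases h2 : (Nst S σ y).Nonempty
    · have hs : sdnf S σ y = true := sdnf_iff.2 h2
      rw [hs]
      by_cases h3 : Nst S σ y = K
      · have hc : chi x V y = 1 := by
          refine chi_on fun i hi => ?_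
          obtain ⟨j, hj, hij⟩ := mem_biUnion.1 (hV hi)
          have h4 : j ∈ Nst S σ y := by rw [h3]; exact hj
          rw [mem_Nst.1 h4 i hij, mem_Nst.1 (hK hj) i hij]
        rw [hc, ind_true h3]
        simp [bR]
        exact hs0
      · have h4 : Nst S σ y ∈ K.ssubsets.filter (fun K' => K'.Nonempty) := by
          rw [mem_filter, mem_ssubsets]
          exact ⟨Finset.ssubset_iff_subset_ne.2 ⟨h1, h3⟩, h2⟩
        have h5 : (1 : ℝ) ≤ ∑ K' ∈ K.ssubsets.filter (fun K' => K'.Nonempty),
            ind (Nst S σ y = K') := by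
          calc (1 : ℝ) = ind (Nst S σ y = Nst S σ y) := (ind_true rfl).symm
            _ ≤ _ := single_le_sum (f := fun K' => ind (Nst S σ y = K'))
                (fun K' _ => ind_nonneg _) h4
        have h6 := Dec_abs_chi x V y
        rw [ind_false h3]
        simp [bR]
        linarith
    · have hs : sdnf S σ y = false := by
        rw [← Bool.not_eq_true, sdnf_iff]
        exact h2
      have h3 : Nst S σ y ≠ K := by
        intro h
        rw [h] at h2
        exact h2 hne
      rw [hs, ind_false h3]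
      simp [bR]
      exact hs0
  · have hG : GK S σ K y = true := GK_iff.2 h1
    have hs : sdnf S σ y = true := by
      rw [sdnf_iff]
      by_contra h
      rw [not_nonempty_iff_eq_empty] at h
      rw [h] at h1
      exact h1 (empty_subset K)
    have h3 : Nst S σ y ≠ K := by
      intro h
      rw [h] at h1
      exact h1 (subset_refl K)
    rw [hG, hs, ind_false h3]
    linarith

/-
PROOF. By `sdnf_iff`, `GK_iff`: `bR (sdnf S σ y) - bR (GK S σ K y) = ind (Nst S σ y ≠ ∅ and
Nst S σ y ⊆ K)`. So `co x (sdnf S σ) V - co x (GK S σ K) V =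
(∑ y, ind (∅ ≠ Nst S σ y ⊆ K) * chi x V y) / 2 ^ n`. Split `ind (∅ ≠ Nst S σ y ⊆ K) =
ind (Nst S σ y = K) + ∑ K' ∈ K.ssubsets.filter Nonempty, ind (Nst S σ y = K')` (`K` is nonempty).
If `Nst S σ y = K` then for `i ∈ V ⊆ K.biUnion S`, `i ∈ S j` with `j ∈ K`: `y i = σ j i = x i`
(as `K ⊆ Nst S σ x`), so `chi x V y = 1`, and the first part contributes `mK S σ K` (`sum_bR`).
In the second part `|chi x V y| ≤ 1` (`chi_sq`), so it is at least `- ∑ K', mK S σ K'`, which is
at least `- mK S σ K / 2` by `Good`. Together `co x (sdnf S σ) V - co x (GK S σ K) V ≥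
mK S σ K - mK S σ K / 2`.
-/
theorem co_ge (S : Fin s → Finset (Fin n)) (σ : Fin s → Fin n → Bool) (K : Finset (Fin s))
    (x : Fin n → Bool) (hne : K.Nonempty) (hK : K ⊆ Nst S σ x) (hgood : Good S σ K)
    (V : Finset (Fin n)) (hV : V ⊆ K.biUnion S) :
    co x (GK S σ K) V + mK S σ K / 2 ≤ co x (sdnf S σ) V := by
  classical
  have hp : (0 : ℝ) < 2 ^ n := by positivity
  have h1 := sum_le_sum fun (y : Fin n → Bool) (_ : y ∈ univ) =>
    Dec_point S σ K x hne hK V hV y
  rw [sum_sub_distrib, sum_add_distrib, sum_comm, Dec_sum_ind] at h1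
  have h2 : ∑ K' ∈ K.ssubsets.filter (fun K' => K'.Nonempty), ∑ y, ind (Nst S σ y = K') =
      (∑ K' ∈ K.ssubsets.filter (fun K' => K'.Nonempty), mK S σ K') * 2 ^ n := by
    rw [sum_mul]
    exact sum_congr rfl fun K' _ => Dec_sum_ind _
  rw [h2] at h1
  have h3 : (∑ K' ∈ K.ssubsets.filter (fun K' => K'.Nonempty), mK S σ K') * 2 ^ n ≤
      mK S σ K / 2 * 2 ^ n := mul_le_mul_of_nonneg_right hgood hp.le
  have h4 : pr (fun y => Nst S σ y = K) = mK S σ K := rfl
  rw [h4] at h1
  unfold co
  rw [div_add' _ _ _ hp.ne', div_le_div_iff_of_pos_right hp]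
  linarith

end Pool.Agent.H.MP_cba12a_lc.SR
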