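import Pool.Agent.H.MP_cba12a_lc.Greedy8

/-!
DNF formulas with given variable sets of the terms and given signs; basic notions.
-/

namespace Pool.Agent.H.MP_cba12a_lc.SR

open Finset

variable {n s : ℕ}

/-- The DNF formula with the `s` terms `⋀ i ∈ S j, x i = σ j i`, `j < s`: the variable set of the
term `j` is `S j`, and `σ j` says which of its variables are negated. -/
def sdnf (S : Fin s → Finset (Fin n)) (σ : Fin s → Fin n → Bool) (x : Fin n → Bool) : Bool :=
  decide (∃ j, ∀ i ∈ S j, x i = σ j i)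

/-- the set of the terms which hold at `y` -/
def Nst (S : Fin s → Finset (Fin n)) (σ : Fin s → Fin n → Bool) (y : Fin n → Bool) :
    Finset (Fin s) := univ.filter fun j => ∀ i ∈ S j, y i = σ j i

/-- some term outside `K` holds -/
def GK (S : Fin s → Finset (Fin n)) (σ : Fin s → Fin n → Bool) (K : Finset (Fin s))
    (y : Fin n → Bool) : Bool := decide (∃ j, j ∉ K ∧ ∀ i ∈ S j, y i = σ j i)

/-- the chance that exactly the terms of `K` hold -/
noncomputable def mK (S : Fin s → Finset (Fin n)) (σ : Fin s → Fin n → Bool)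
    (K : Finset (Fin s)) : ℝ := pr fun y => Nst S σ y = K

/-- the chance that all terms of `K` hold -/
noncomputable def pK (S : Fin s → Finset (Fin n)) (σ : Fin s → Fin n → Bool)
    (K : Finset (Fin s)) : ℝ := pr fun y => K ⊆ Nst S σ y

/-- weight of a term -/
noncomputable def q (S : Fin s → Finset (Fin n)) (j : Fin s) : ℝ := (1 / 2) ^ (S j).card

/-- product of all `1 + q j` -/
noncomputable def Z (S : Fin s → Finset (Fin n)) : ℝ := ∏ j, (1 + q S j)

/-- `K` is more likely to be the set of the terms which hold than all its smaller parts -/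
def Good (S : Fin s → Finset (Fin n)) (σ : Fin s → Fin n → Bool) (K : Finset (Fin s)) : Prop :=
  ∑ K' ∈ K.ssubsets.filter (fun K' => K'.Nonempty), mK S σ K' ≤ mK S σ K / 2

/-- average over all choices of the signs -/
noncomputable def av (F : (Fin s → Fin n → Bool) → ℝ) : ℝ :=
  (∑ σ, F σ) / Fintype.card (Fin s → Fin n → Bool)

/-- the function `φ` of the signs depends only on the signs of the terms outside `K` -/
def OffK (K : Finset (Fin s)) (φ : (Fin s → Fin n → Bool) → ℝ) : Prop :=
  ∀ σ σ' : Fin s → Fin n → Bool, (∀ j, j ∉ K → σ j = σ' j) → φ σ = φ σ'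

/-- the `t` smallest elements of `A` (all of `A` if `A` has fewer elements) -/
def pre (A : Finset (Fin n)) (t : ℕ) : Finset (Fin n) := ((A.sort (· ≤ ·)).take t).toFinset

/-- all coefficients of `g` on `A ∪ C`, for `C ⊆ T \ A` of size `1` or `2`, are small -/
def Blk (θ : ℝ) (g : (Fin n → Bool) → Bool) (o : Fin n → Bool) (T A : Finset (Fin n)) : Prop :=
  ∀ C, C ⊆ T \ A → 1 ≤ C.card → C.card ≤ 2 → |co o g (A ∪ C)| < θ

/-- the term with variable set `T` and signs `o` will be found -/
def Fnd (r0 W : ℕ) (θ : ℝ) (g : (Fin n → Bool) → Bool) (o : Fin n → Bool)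
    (T : Finset (Fin n)) : Prop :=
  T.card ≤ W ∧ ∀ t : ℕ, t + r0 ≤ T.card → ¬ Blk θ g o T (pre T t)

/-- the point `x` satisfies a term but no term which will be found -/
def Lost (r0 W : ℕ) (θ : ℝ) (S : Fin s → Finset (Fin n)) (σ : Fin s → Fin n → Bool)
    (x : Fin n → Bool) : Prop :=
  (Nst S σ x).Nonempty ∧ ∀ j ∈ Nst S σ x, ¬ Fnd r0 W θ (sdnf S σ) (σ j) (S j)

theorem mem_Nst {S : Fin s → Finset (Fin n)} {σ : Fin s → Fin n → Bool} {y : Fin n → Bool}
    {j : Fin s} : j ∈ Nst S σ y ↔ ∀ i ∈ S j, y i = σ j i := by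
  unfold Nst
  simp

theorem sdnf_iff {S : Fin s → Finset (Fin n)} {σ : Fin s → Fin n → Bool} {x : Fin n → Bool} :
    sdnf S σ x = true ↔ (Nst S σ x).Nonempty := by
  unfold sdnf
  rw [decide_eq_true_iff]
  constructor
  · rintro ⟨j, hj⟩
    exact ⟨j, mem_Nst.2 hj⟩
  · rintro ⟨j, hj⟩
    exact ⟨j, mem_Nst.1 hj⟩

theorem GK_iff {S : Fin s → Finset (Fin n)} {σ : Fin s → Fin n → Bool} {K : Finset (Fin s)}
    {x : Fin n → Bool} : GK S σ K x = true ↔ ¬ (Nst S σ x ⊆ K) := by
  unfold GK
  rw [decide_eq_true_iff]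
  constructor
  · rintro ⟨j, hj, h⟩ hs
    exact hj (hs (mem_Nst.2 h))
  · intro h
    obtain ⟨j, hj, hjK⟩ := not_subset.1 h
    exact ⟨j, hjK, mem_Nst.1 hj⟩

theorem q_pos (S : Fin s → Finset (Fin n)) (j : Fin s) : 0 < q S j := by
  unfold q; positivity

theorem one_le_Z (S : Fin s → Finset (Fin n)) : 1 ≤ Z S := by
  unfold Z
  have h : ∀ t : Finset (Fin s), (1 : ℝ) ≤ ∏ j ∈ t, (1 + q S j) := by
    classical
    intro t
    induction t using Finset.induction_on with
    | empty => simp
    | insert a t ha ih =>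
      rw [prod_insert ha]
      have := q_pos S a
      nlinarith
  exact h univ

theorem av_nonneg {F : (Fin s → Fin n → Bool) → ℝ} (h : ∀ σ, 0 ≤ F σ) : 0 ≤ av F := by
  unfold av
  exact div_nonneg (sum_nonneg fun σ _ => h σ) (by positivity)

theorem av_mono {F F' : (Fin s → Fin n → Bool) → ℝ} (h : ∀ σ, F σ ≤ F' σ) : av F ≤ av F' := by
  unfold av
  exact div_le_div_of_nonneg_right (sum_le_sum fun σ _ => h σ) (by positivity)

theorem av_add (F F' : (Fin s → Fin n → Bool) → ℝ) :
    av (fun σ => F σ + F' σ) = av F + av F' := by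
  unfold av
  rw [sum_add_distrib, add_div]

theorem av_mul_left (c : ℝ) (F : (Fin s → Fin n → Bool) → ℝ) :
    av (fun σ => c * F σ) = c * av F := by
  unfold av
  rw [← mul_sum, mul_div_assoc]

theorem av_sum {ι : Type} (L : Finset ι) (F : ι → (Fin s → Fin n → Bool) → ℝ) :
    av (fun σ => ∑ i ∈ L, F i σ) = ∑ i ∈ L, av (F i) := by
  unfold av
  rw [sum_comm, sum_div]

/-- the average of the probability of an event which depends on the signs -/
theorem av_pr (P : (Fin s → Fin n → Bool) → (Fin n → Bool) → Prop) :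
    av (fun σ => pr (P σ)) = (∑ x, av fun σ => ind (P σ x)) / 2 ^ n := by
  classical
  have h : ∀ σ, pr (P σ) = (∑ x, ind (P σ x)) / 2 ^ n := by
    intro σ
    have hp : (2 : ℝ) ^ n ≠ 0 := by positivity
    have h1 := sum_bR (P σ) (fun x => decide (P σ x)) fun x => decide_eq_true_iff
    rw [eq_div_iff hp, ← h1]
    refine sum_congr rfl fun x _ => ?_
    unfold ind bR
    by_cases hx : P σ x <;> simp [hx]
  have e : (fun σ => pr (P σ)) = fun σ => (1 / 2 ^ n) * ∑ x, ind (P σ x) := by
    funext σ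
    rw [h σ]
    ring
  rw [e, av_mul_left, av_sum]
  ring

end Pool.Agent.H.MP_cba12a_lc.SR
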