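import Pool.Agent.H.MP_cba12a_lc.SR.Defs

/-!
Independence of the signs of different terms.
-/

namespace Pool.Agent.H.MP_cba12a_lc.SR

open Finset

variable {n s : ℕ}

private theorem ind_count (x : Fin n → Bool) (A : Finset (Fin n)) :
    ∑ v : Fin n → Bool, ind (∀ i ∈ A, x i = v i) = 2 ^ n * (1 / 2) ^ A.card := by
  classical
  have h1 := sum_bR (fun v : Fin n → Bool => On x A v ∧ True)
    (fun v => decide (∀ i ∈ A, x i = v i)) (by
      intro v
      rw [decide_eq_true_iff]
      constructor
      · intro h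
        exact ⟨fun i hi => (h i hi).symm, trivial⟩
      · intro h i hi
        exact (h.1 i hi).symm)
  have h2 := sum_bR (fun _ : Fin n → Bool => True) (fun _ => true) (by simp)
  have h3 : pr (fun _ : Fin n → Bool => True) = 1 := by
    simp only [bR, if_true, sum_const, card_univ, Fintype.card_fun, Fintype.card_bool,
      Fintype.card_fin, nsmul_eq_mul, mul_one] at h2
    have hp : (0 : ℝ) < 2 ^ n := by positivity
    push_cast at h2
    have := mul_right_cancel₀ hp.ne' ((one_mul _).trans h2)
    exact this.symm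
  rw [pr_on, h3, mul_one] at h1
  rw [mul_comm, ← h1]
  refine sum_congr rfl fun v _ => ?_
  unfold ind bR
  by_cases hv : ∀ i ∈ A, x i = v i <;> simp [hv]

private theorem ind_swap (j : Fin s) (F : (Fin s → Fin n → Bool) → ℝ) :
    (2 : ℝ) ^ n * ∑ σ, F σ = ∑ σ, ∑ v : Fin n → Bool, F (Function.update σ j v) := by
  classical
  have hf : Function.Involutive (fun p : (Fin s → Fin n → Bool) × (Fin n → Bool) =>
      ((Function.update p.1 j p.2, p.1 j) : (Fin s → Fin n → Bool) × (Fin n → Bool))) := by
    rintro ⟨σ, v⟩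
    simp
  have h1 := Equiv.sum_comp hf.toPerm (fun p : (Fin s → Fin n → Bool) × (Fin n → Bool) => F p.1)
  rw [Fintype.sum_prod_type, Fintype.sum_prod_type] at h1
  have h2 : ∑ σ : Fin s → Fin n → Bool, ∑ _v : Fin n → Bool, F σ = (2 : ℝ) ^ n * ∑ σ, F σ := by
    rw [mul_sum]
    refine sum_congr rfl fun σ _ => ?_
    rw [sum_const, card_univ, Fintype.card_fun, Fintype.card_bool, Fintype.card_fin,
      nsmul_eq_mul]
    push_cast
    ring
  rw [← h2]
  exact h1.symm

private theorem ind_one (S : Fin s → Finset (Fin n)) (x : Fin n → Bool) (j : Fin s)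
    (ψ : (Fin s → Fin n → Bool) → ℝ)
    (hψ : ∀ (σ : Fin s → Fin n → Bool) (v : Fin n → Bool), ψ (Function.update σ j v) = ψ σ) :
    av (fun σ => ind (∀ i ∈ S j, x i = σ j i) * ψ σ) = q S j * av ψ := by
  classical
  have h1 := ind_swap j (fun σ : Fin s → Fin n → Bool => ind (∀ i ∈ S j, x i = σ j i) * ψ σ)
  have h2 : ∑ σ : Fin s → Fin n → Bool, ∑ v : Fin n → Bool,
      ind (∀ i ∈ S j, x i = Function.update σ j v j i) * ψ (Function.update σ j v) =
      (2 : ℝ) ^ n * (q S j * ∑ σ, ψ σ) := by
    rw [mul_sum, mul_sum]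
    refine sum_congr rfl fun σ _ => ?_
    have h3 : ∀ v : Fin n → Bool,
        ind (∀ i ∈ S j, x i = Function.update σ j v j i) * ψ (Function.update σ j v) =
        ind (∀ i ∈ S j, x i = v i) * ψ σ := by
      intro v
      rw [hψ, Function.update_self]
    rw [sum_congr rfl fun v _ => h3 v, ← sum_mul, ind_count]
    unfold q
    ring
  rw [h2] at h1
  have hp : (2 : ℝ) ^ n ≠ 0 := by positivity
  have h4 := mul_left_cancel₀ hp h1
  unfold av
  rw [h4, mul_div_assoc]

private theorem ind_mul {P Q R : Prop} (h : P ↔ Q ∧ R) : ind P = ind Q * ind R := by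
  by_cases hQ : Q
  · rw [ind_true hQ, one_mul]
    exact ind_congr (h.trans ⟨fun h => h.2, fun h => ⟨hQ, h⟩⟩)
  · rw [ind_false hQ, zero_mul]
    exact ind_false fun hP => hQ (h.1 hP).1

private theorem ind_av_one : av (fun _ : Fin s → Fin n → Bool => (1 : ℝ)) = 1 := by
  unfold av
  rw [sum_const, card_univ, nsmul_eq_mul, mul_one]
  refine div_self ?_
  have : (0 : ℝ) < Fintype.card (Fin s → Fin n → Bool) := by
    exact_mod_cast Fintype.card_pos
  exact this.ne'

/-
PROOF of `av_mul_sat`. Induction on `K` (`Finset.induction_on`); `K = ∅` is trivial. Step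
`insert j K`, `j ∉ K`: `ind (insert j K ⊆ Nst S σ x) = ind (∀ i ∈ S j, x i = σ j i) *
ind (K ⊆ Nst S σ x)`. Put `φ' σ = ind (K ⊆ Nst S σ x) * φ σ`; it does not change when only `σ j`
changes (`φ' (Function.update σ j v) = φ' σ`, because `j ∉ K` and `φ` does not depend on the signs
of the terms of `insert j K`). One-coordinate lemma (prove it first): if `ψ (Function.update σ j v)
= ψ σ` for all `σ, v`, then `av (fun σ => ind (∀ i ∈ S j, x i = σ j i) * ψ σ) = q S j * av ψ`.
For this: the map `(σ, v) ↦ (Function.update σ j v, σ j)` is an involution of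
`(Fin s → Fin n → Bool) × (Fin n → Bool)`, so `2 ^ n * ∑ σ, F σ = ∑ σ, ∑ v, F (update σ j v)` for
every `F`; with `F σ = ind (∀ i ∈ S j, x i = σ j i) * ψ σ` the inner sum is
`ψ σ * ∑ v, ind (∀ i ∈ S j, x i = v i)` and `∑ v, ind (∀ i ∈ S j, x i = v i) = 2 ^ n * q S j`
(this is `pr_on` with `Q = True` and `sum_bR`, or count directly). Then apply the induction
hypothesis to `φ` (which is `OffK K` because it is `OffK (insert j K)`).
-/
/-- the terms of `K` all hold at `x` with probability `∏ q j`, independently of everything that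
depends only on the signs of the other terms -/
theorem av_mul_sat (S : Fin s → Finset (Fin n)) (x : Fin n → Bool) (K : Finset (Fin s))
    (φ : (Fin s → Fin n → Bool) → ℝ) (hφ : OffK K φ) :
    av (fun σ => ind (K ⊆ Nst S σ x) * φ σ) = (∏ j ∈ K, q S j) * av φ := by
  classical
  induction K using Finset.induction_on generalizing φ with
  | empty =>
    rw [prod_empty, one_mul]
    refine congrArg av ?_
    funext σ
    rw [ind_true (empty_subset _), one_mul]
  | insert j K hj ih =>
    have hφK : OffK K φ := fun σ σ' h => hφ σ σ' fun i hi => h i fun hK =>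
      hi (mem_insert_of_mem hK)
    have e : (fun σ : Fin s → Fin n → Bool => ind (insert j K ⊆ Nst S σ x) * φ σ) =
        fun σ => ind (∀ i ∈ S j, x i = σ j i) * (ind (K ⊆ Nst S σ x) * φ σ) := by
      funext σ
      rw [← mul_assoc]
      congr 1
      apply ind_mul
      rw [insert_subset_iff, mem_Nst]
    have hne : ∀ i ∈ K, i ≠ j := by
      rintro i hi rfl
      exact hj hi
    rw [e, ind_one S x j (fun σ => ind (K ⊆ Nst S σ x) * φ σ), ih φ hφK, prod_insert hj, mul_assoc]
    intro σ v
    have h1 : φ (Function.update σ j v) = φ σ := by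
      refine hφ _ _ fun i hi => ?_
      rw [Function.update_of_ne]
      rintro rfl
      exact hi (mem_insert_self _ _)
    have h2 : ind (K ⊆ Nst S (Function.update σ j v) x) = ind (K ⊆ Nst S σ x) := by
      apply ind_congr
      constructor
      · intro h i hi
        have h3 := mem_Nst.1 (h hi)
        rw [Function.update_of_ne (hne i hi)] at h3
        exact mem_Nst.2 h3
      · intro h i hi
        apply mem_Nst.2
        rw [Function.update_of_ne (hne i hi)]
        exact mem_Nst.1 (h hi)
    show ind (K ⊆ Nst S (Function.update σ j v) x) * φ (Function.update σ j v) =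
      ind (K ⊆ Nst S σ x) * φ σ
    rw [h1, h2]

private theorem ind_av_sub (S : Fin s → Finset (Fin n)) (x : Fin n → Bool) (K : Finset (Fin s)) :
    av (fun σ => ind (K ⊆ Nst S σ x)) = ∏ j ∈ K, q S j := by
  have h := av_mul_sat S x K (fun _ => 1) (fun _ _ _ => rfl)
  rw [ind_av_one, mul_one] at h
  rw [← h]
  refine congrArg av ?_
  funext σ
  rw [mul_one]

/-
PROOF. `2 ^ (Nst S σ x).card = ∑ K ∈ univ.powerset, ind (K ⊆ Nst S σ x)` (the number of subsets),
`av_sum`, `av_mul_sat` with `φ = 1` (`av 1 = 1`), and `∑ K ∈ univ.powerset, ∏ j ∈ K, q S j =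
∏ j, (1 + q S j)` (`Finset.prod_one_add` or `Finset.prod_add`).
-/
theorem av_two_pow (S : Fin s → Finset (Fin n)) (x : Fin n → Bool) :
    av (fun σ => (2 : ℝ) ^ (Nst S σ x).card) = Z S := by
  classical
  have e : (fun σ : Fin s → Fin n → Bool => (2 : ℝ) ^ (Nst S σ x).card) =
      fun σ => ∑ K : Finset (Fin s), ind (K ⊆ Nst S σ x) := by
    funext σ
    have h1 : ∑ K : Finset (Fin s), ind (K ⊆ Nst S σ x) =
        ∑ K ∈ (Nst S σ x).powerset, (1 : ℝ) := by
      have h2 : (Nst S σ x).powerset = univ.filter fun K => K ⊆ Nst S σ x := by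
        ext K
        simp
      rw [h2, sum_filter]
      refine sum_congr rfl fun K _ => ?_
      unfold ind
      by_cases h : K ⊆ Nst S σ x <;> simp [h]
    rw [h1, sum_const, card_powerset, nsmul_eq_mul, mul_one]
    push_cast
    rfl
  rw [e, av_sum, sum_congr rfl fun K _ => ind_av_sub S x K]
  unfold Z
  rw [prod_one_add, powerset_univ]

/-
PROOF. `∑ K ∈ univ.powerset, ∏ j ∈ K, q S j = Z S`, as above.
-/
theorem sum_prod_q (S : Fin s → Finset (Fin n)) :
    ∑ K : Finset (Fin s), ∏ j ∈ K, q S j = Z S := by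
  classical
  unfold Z
  rw [prod_one_add, powerset_univ]

/-
PROOF. `ind (Nst S σ x = ∅) = ∑ K ∈ univ.powerset, (-1) ^ K.card * ind (K ⊆ Nst S σ x)` (or write
it as `∏ j, (1 - ind (j ∈ Nst S σ x))`), so the average is `∏ j, (1 - q S j)` by `av_mul_sat`; and
`(1 - q) * (1 + q) ≤ 1`, `0 ≤ 1 - q`, so the product is at most `1 / Z S`.
-/
theorem av_none (S : Fin s → Finset (Fin n)) (x : Fin n → Bool) :
    av (fun σ => ind (Nst S σ x = ∅)) ≤ 1 / Z S := by
  classical
  have hq1 : ∀ j, q S j ≤ 1 := fun j => by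
    unfold q
    exact pow_le_one₀ (by norm_num) (by norm_num)
  have e : (fun σ : Fin s → Fin n → Bool => ind (Nst S σ x = ∅)) =
      fun σ => ∑ K : Finset (Fin s), (-1 : ℝ) ^ K.card * ind (K ⊆ Nst S σ x) := by
    funext σ
    have h1 : ∑ K : Finset (Fin s), (-1 : ℝ) ^ K.card * ind (K ⊆ Nst S σ x) =
        ∑ K ∈ (Nst S σ x).powerset, (-1 : ℝ) ^ K.card := by
      have h2 : (Nst S σ x).powerset = univ.filter fun K => K ⊆ Nst S σ x := by
        ext K
        simp
      rw [h2, sum_filter]
      refine sum_congr rfl fun K _ => ?_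
      unfold ind
      by_cases h : K ⊆ Nst S σ x <;> simp [h]
    have h3 := Finset.sum_powerset_neg_one_pow_card (x := Nst S σ x)
    have h4 : ∑ K ∈ (Nst S σ x).powerset, (-1 : ℝ) ^ K.card =
        (((∑ K ∈ (Nst S σ x).powerset, (-1 : ℤ) ^ K.card) : ℤ) : ℝ) := by
      push_cast
      rfl
    rw [h1, h4, h3]
    unfold ind
    by_cases h : Nst S σ x = ∅ <;> simp [h]
  have h5 : av (fun σ : Fin s → Fin n → Bool => ind (Nst S σ x = ∅)) = ∏ j, (1 - q S j) := by
    rw [e, av_sum]
    have h6 : ∀ K : Finset (Fin s),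
        av (fun σ : Fin s → Fin n → Bool => (-1 : ℝ) ^ K.card * ind (K ⊆ Nst S σ x)) =
          ∏ j ∈ K, -q S j := by
      intro K
      rw [av_mul_left, ind_av_sub, ← prod_const, ← prod_mul_distrib]
      refine prod_congr rfl fun j _ => ?_
      ring
    rw [sum_congr rfl fun K _ => h6 K, ← powerset_univ, ← prod_one_add]
    refine prod_congr rfl fun j _ => ?_
    ring
  have hZ : 0 < Z S := lt_of_lt_of_le one_pos (one_le_Z S)
  rw [h5, le_div_iff₀ hZ]
  unfold Z
  rw [← prod_mul_distrib]
  refine prod_le_one (fun j _ => ?_) fun j _ => ?_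
  · have h7 := q_pos S j
    have h8 := hq1 j
    exact mul_nonneg (by linarith) (by linarith)
  · have h7 := q_pos S j
    nlinarith

end Pool.Agent.H.MP_cba12a_lc.SR
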