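import Pool.Agent.H.MP_cba12a_lc.SR.Ind
import Pool.Agent.H.MP_cba12a_lc.SR.Cnt
import Pool.Agent.H.MP_cba12a_lc.SR.Dec

/-!
A good set of terms is rarely blocked.
-/

namespace Pool.Agent.H.MP_cba12a_lc.SR

open Finset

variable {n s : ℕ}

/-
PROOF. Put `R = S j \ A` and `X σ x := ∀ C, C ⊆ R → 1 ≤ C.card → C.card ≤ 2 →
co x (GK S σ K) (A ∪ C) < 0`. The event implies `K ⊆ Nst S σ x` and `X σ x`: let `C ⊆ R`,
`1 ≤ |C| ≤ 2`, `V = A ∪ C ⊆ S j ⊆ K.biUnion S`. As `j ∈ K ⊆ Nst S σ x`, `x` and `σ j` agree on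
`S j ⊇ V`, so `co x g V = co (σ j) g V` (`co_congr`), which is `< θ ≤ mK / 2` by `Blk`
(`le_abs_self`); and `co_ge` gives `co x (GK S σ K) V ≤ co x g V - mK / 2 < θ - mK / 2 ≤ 0`.
So (`av_mono`, `pr_mono`, `av_pr`) the left side is at most
`(∑ x, av fun σ => ind (K ⊆ Nst S σ x) * ind (X σ x)) / 2 ^ n`. For fixed `x` the function
`σ ↦ ind (X σ x)` is `OffK K` (`GK S σ K` depends only on `σ j'`, `j' ∉ K`), so by `av_mul_sat`
this is `(∏ k ∈ K, q S k) * (∑ x, av fun σ => ind (X σ x)) / 2 ^ n =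
(∏ k ∈ K, q S k) * av fun σ => pr (X σ)` (`av_pr` backwards), and `pr (X σ) ≤ (1 / 2) ^ R.card` by
`pr_neg_le` (`A` and `R = S j \ A` are disjoint); finally `av (fun _ => c) = c` for a constant
(`av_mono` and the definition; the number of sign patterns is positive).
-/
private theorem key_ind {P Q : Prop} : ind (P ∧ Q) = ind P * ind Q := by
  by_cases hP : P
  · rw [ind_true hP, one_mul]
    exact ind_congr ⟨fun h => h.2, fun h => ⟨hP, h⟩⟩
  · rw [ind_false hP, zero_mul]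
    exact ind_false fun h => hP h.1

private theorem key_const (c : ℝ) : av (fun _ : Fin s → Fin n → Bool => c) = c := by
  unfold av
  have h : (0 : ℝ) < Fintype.card (Fin s → Fin n → Bool) := by
    exact_mod_cast Fintype.card_pos
  rw [sum_const, card_univ, nsmul_eq_mul, mul_comm, mul_div_assoc, div_self h.ne', mul_one]

private theorem key_off (S : Fin s → Finset (Fin n)) (K : Finset (Fin s)) (R A : Finset (Fin n))
    (x : Fin n → Bool) :
    OffK K fun σ => ind (∀ C, C ⊆ R → 1 ≤ C.card → C.card ≤ 2 →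
      co x (GK S σ K) (A ∪ C) < 0) := by
  intro σ σ' h
  have h1 : GK S σ K = GK S σ' K := by
    funext y
    unfold GK
    congr 1
    rw [eq_iff_iff]
    constructor
    · rintro ⟨k, hk, h2⟩
      exact ⟨k, hk, fun i hi => by rw [← h k hk]; exact h2 i hi⟩
    · rintro ⟨k, hk, h2⟩
      exact ⟨k, hk, fun i hi => by rw [h k hk]; exact h2 i hi⟩
  show ind _ = ind _
  rw [h1]

theorem key (S : Fin s → Finset (Fin n)) (K : Finset (Fin s)) (j : Fin s) (hj : j ∈ K)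
    (A : Finset (Fin n)) (hA : A ⊆ S j) (θ : ℝ) (hr : 2 ≤ (S j \ A).card) :
    av (fun σ => pr fun x => K ⊆ Nst S σ x ∧ Good S σ K ∧ 2 * θ ≤ mK S σ K ∧
      Blk θ (sdnf S σ) (σ j) (S j) A) ≤ (∏ k ∈ K, q S k) * (1 / 2) ^ (S j \ A).card := by
  classical
  have hne : K.Nonempty := ⟨j, hj⟩
  have h1 : av (fun σ => pr fun x => K ⊆ Nst S σ x ∧ Good S σ K ∧ 2 * θ ≤ mK S σ K ∧
      Blk θ (sdnf S σ) (σ j) (S j) A) ≤
      av (fun σ => pr fun x => K ⊆ Nst S σ x ∧ ∀ C, C ⊆ S j \ A → 1 ≤ C.card → C.card ≤ 2 →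
        co x (GK S σ K) (A ∪ C) < 0) := by
    refine av_mono fun σ => pr_mono fun x => ?_
    rintro ⟨hK, hg, hm, hb⟩
    refine ⟨hK, fun C hC h2 h3 => ?_⟩
    have hV : A ∪ C ⊆ S j := union_subset hA (hC.trans sdiff_subset)
    have h4 := hb C hC h2 h3
    have h5 : co (σ j) (sdnf S σ) (A ∪ C) = co x (sdnf S σ) (A ∪ C) :=
      co_congr _ _ _ _ fun i hi => (mem_Nst.1 (hK hj) i (hV hi)).symm
    have h6 := co_ge S σ K x hne hK hg (A ∪ C) (hV.trans (subset_biUnion_of_mem S hj))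
    have h7 := le_abs_self (co (σ j) (sdnf S σ) (A ∪ C))
    linarith
  refine h1.trans ?_
  have hprod : 0 ≤ ∏ k ∈ K, q S k := prod_nonneg fun k _ => (q_pos S k).le
  have h2 : ∀ x : Fin n → Bool, av (fun σ => ind (K ⊆ Nst S σ x ∧
      ∀ C, C ⊆ S j \ A → 1 ≤ C.card → C.card ≤ 2 → co x (GK S σ K) (A ∪ C) < 0)) =
      (∏ k ∈ K, q S k) * av fun σ => ind (∀ C, C ⊆ S j \ A → 1 ≤ C.card → C.card ≤ 2 →
        co x (GK S σ K) (A ∪ C) < 0) := by
    intro x
    rw [← av_mul_sat S x K _ (key_off S K (S j \ A) A x)]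
    exact congrArg av (funext fun σ => key_ind)
  rw [av_pr, sum_congr rfl fun x _ => h2 x, ← mul_sum, mul_div_assoc, ← av_pr fun σ x =>
    ∀ C, C ⊆ S j \ A → 1 ≤ C.card → C.card ≤ 2 → co x (GK S σ K) (A ∪ C) < 0]
  refine mul_le_mul_of_nonneg_left ?_ hprod
  refine (av_mono fun σ => pr_neg_le (GK S σ K) A (S j \ A) disjoint_sdiff hr).trans ?_
  rw [key_const]

end Pool.Agent.H.MP_cba12a_lc.SR
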