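import Pool.Agent.H.MP_cba12a_lc.Lg

/-!
The parameters of the learner.
-/

namespace Pool.Agent.H.MP_cba12a_lc.SR

/-- bound for the lengths of the terms which matter; `x = a * d` -/
def WS (x s : ℕ) : ℕ := Nat.clog 2 (32 * x * (s + 1))

/-- number of literals which are added to the lists found by the search -/
def rS (x : ℕ) : ℕ := 3 * Nat.clog 2 x + 11

/-- bound for the number of terms which hold at a point -/
def mS (x : ℕ) : ℕ := 3 * Nat.clog 2 x + 9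

/-- inverse of the threshold for the coefficients; `T = (n + s + x) ^ Nat.clog 2 x` -/
def ThS (x s T : ℕ) : ℕ := 2 ^ 102 * (2 * x) ^ 87 * T ^ 15 * (32 * (2 * x) * (s + 1)) ^ 9

/-- bound for the lengths of all lists -/
def NS (x n s T : ℕ) : ℕ :=
  4096 * (2 * x) * (s + 1) * ThS x s T ^ 2 + ((2 * x) ^ 2 * T) ^ 3 * (2 * n + 1) ^ 11

section

variable {x n s T : ℕ}

theorem num_u (hx : 1 ≤ x) : 2 ^ Nat.clog 2 x ≤ 2 * x := two_pow_clog_le x hx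

theorem num_xT (hT : T = (n + s + x) ^ Nat.clog 2 x) : x ^ Nat.clog 2 x ≤ T := by
  rw [hT]
  exact Nat.pow_le_pow_left (by omega) _

theorem num_uT (hx : 1 ≤ x) (hT : T = (n + s + x) ^ Nat.clog 2 x) :
    (2 * x) ^ Nat.clog 2 x ≤ 2 * x * T := by
  rw [mul_pow]
  exact Nat.mul_le_mul (num_u hx) (num_xT hT)

theorem num_sT (hx : 1 ≤ x) (hT : T = (n + s + x) ^ Nat.clog 2 x) :
    (s + 1) ^ Nat.clog 2 x ≤ T := by
  rw [hT]
  exact Nat.pow_le_pow_left (by omega) _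

theorem num_nT (hx : 1 ≤ x) (hT : T = (n + s + x) ^ Nat.clog 2 x) :
    (2 * n + 1) ^ Nat.clog 2 x ≤ (2 * x) ^ 2 * T := by
  calc (2 * n + 1) ^ Nat.clog 2 x ≤ (2 ^ 2 * (n + s + x)) ^ Nat.clog 2 x :=
        Nat.pow_le_pow_left (by omega) _
    _ = (2 ^ Nat.clog 2 x) ^ 2 * T := by
        rw [mul_pow, ← pow_mul, ← pow_mul, hT]
        ring_nf
    _ ≤ _ := Nat.mul_le_mul_right _ (Nat.pow_le_pow_left (num_u hx) 2)

theorem num_W (hx : 1 ≤ x) : 2 ^ WS x s ≤ 32 * (2 * x) * (s + 1) := by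
  have h : 1 ≤ 32 * x * (s + 1) := Nat.succ_le_of_lt (by positivity)
  refine (two_pow_clog_le _ h).trans (le_of_eq ?_)
  ring

theorem num_Wl (hx : 1 ≤ x) (hT : T = (n + s + x) ^ Nat.clog 2 x) :
    (2 ^ WS x s) ^ Nat.clog 2 x ≤ (2 * x) ^ 6 * T ^ 2 := by
  calc (2 ^ WS x s) ^ Nat.clog 2 x ≤ (32 * (2 * x) * (s + 1)) ^ Nat.clog 2 x :=
        Nat.pow_le_pow_left (num_W hx) _
    _ = (2 ^ Nat.clog 2 x) ^ 5 * (2 * x) ^ Nat.clog 2 x * (s + 1) ^ Nat.clog 2 x := by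
        rw [mul_pow, mul_pow, ← pow_mul, mul_comm (Nat.clog 2 x) 5, pow_mul]
        norm_num
    _ ≤ (2 * x) ^ 5 * (2 * x * T) * T :=
        Nat.mul_le_mul (Nat.mul_le_mul (Nat.pow_le_pow_left (num_u hx) 5) (num_uT hx hT))
          (num_sT hx hT)
    _ = _ := by ring

theorem num_Th (hx : 1 ≤ x) (hT : T = (n + s + x) ^ Nat.clog 2 x) :
    4 * 2 ^ ((mS x + 1) * mS x + mS x * WS x s + (3 * Nat.clog 2 x + 10)) ≤ ThS x s T := by
  obtain ⟨l, hl⟩ : ∃ l, l = Nat.clog 2 x := ⟨_, rfl⟩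
  obtain ⟨w, hw⟩ : ∃ w, w = WS x s := ⟨_, rfl⟩
  obtain ⟨u, hu⟩ : ∃ u, u = 2 * x := ⟨_, rfl⟩
  have h1 : 2 ^ l ≤ u := by rw [hl, hu]; exact num_u hx
  have h2 : u ^ l ≤ u * T := by rw [hl, hu]; exact num_uT hx hT
  have h3 : 2 ^ w ≤ 32 * u * (s + 1) := by rw [hw, hu]; exact num_W hx
  have h4 : (2 ^ w) ^ l ≤ u ^ 6 * T ^ 2 := by rw [hw, hl, hu]; exact num_Wl hx hT
  have h5 : (2 ^ l) ^ l ≤ u * T := (Nat.pow_le_pow_left h1 l).trans h2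
  have e : 4 * 2 ^ ((mS x + 1) * mS x + mS x * WS x s + (3 * Nat.clog 2 x + 10)) =
      2 ^ 102 * ((2 ^ l) ^ l) ^ 9 * (2 ^ l) ^ 60 * ((2 ^ w) ^ l) ^ 3 * (2 ^ w) ^ 9 := by
    unfold mS
    rw [← hl, ← hw]
    have e4 : (4 : ℕ) = 2 ^ 2 := by norm_num
    rw [e4]
    simp only [← pow_mul, ← pow_add]
    congr 1
    ring
  rw [e]
  unfold ThS
  rw [← hu]
  calc 2 ^ 102 * ((2 ^ l) ^ l) ^ 9 * (2 ^ l) ^ 60 * ((2 ^ w) ^ l) ^ 3 * (2 ^ w) ^ 9 ≤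
      2 ^ 102 * (u * T) ^ 9 * u ^ 60 * (u ^ 6 * T ^ 2) ^ 3 * (32 * u * (s + 1)) ^ 9 := by
        gcongr
    _ = 2 ^ 102 * u ^ 87 * T ^ 15 * (32 * u * (s + 1)) ^ 9 := by ring

theorem num_N1 (hx : 1 ≤ x) : 2 ^ (WS x s + 1 + 4) * (4 * ThS x s T ^ 2) ≤ NS x n s T := by
  have h := num_W (s := s) hx
  unfold NS
  calc 2 ^ (WS x s + 1 + 4) * (4 * ThS x s T ^ 2) = 2 ^ WS x s * (128 * ThS x s T ^ 2) := by
        rw [pow_add, pow_add]; ring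
    _ ≤ 32 * (2 * x) * (s + 1) * (128 * ThS x s T ^ 2) := Nat.mul_le_mul_right _ h
    _ = 4096 * (2 * x) * (s + 1) * ThS x s T ^ 2 := by ring
    _ ≤ _ := Nat.le_add_right _ _

theorem num_N2 (hx : 1 ≤ x) (hT : T = (n + s + x) ^ Nat.clog 2 x) :
    (2 * n + 1) ^ rS x ≤ NS x n s T := by
  unfold NS rS
  calc (2 * n + 1) ^ (3 * Nat.clog 2 x + 11) =
      ((2 * n + 1) ^ Nat.clog 2 x) ^ 3 * (2 * n + 1) ^ 11 := by
        rw [pow_add, mul_comm 3, pow_mul]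
    _ ≤ ((2 * x) ^ 2 * T) ^ 3 * (2 * n + 1) ^ 11 :=
        Nat.mul_le_mul_right _ (Nat.pow_le_pow_left (num_nT hx hT) 3)
    _ ≤ _ := Nat.le_add_left _ _

theorem ThS_mono {x' s' T' : ℕ} (h1 : x ≤ x') (h2 : s ≤ s') (h3 : T ≤ T') :
    ThS x s T ≤ ThS x' s' T' := by
  unfold ThS
  gcongr

theorem num_Th_pos (hx : 1 ≤ x) (hT : 1 ≤ T) : 0 < ThS x s T := by
  unfold ThS
  positivity

/-- the threshold is large compared with all other parameters -/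
theorem num_Th_ge {a d : ℕ} (ha : 1 ≤ a) (hd : 1 ≤ d) (hT : 1 ≤ T) :
    1024 * a ^ 2 * (s + 1) ≤ ThS (a * d) s T := by
  unfold ThS
  have h1 : a ≤ 2 * (a * d) := by nlinarith
  have h2 : 1 ≤ 2 * (a * d) := by omega
  have h3 : a ^ 2 ≤ (2 * (a * d)) ^ 87 :=
    (Nat.pow_le_pow_left h1 2).trans (Nat.pow_le_pow_right h2 (by norm_num))
  have h4 : 1 ≤ T ^ 15 := Nat.one_le_pow _ _ hT
  have h5 : s + 1 ≤ (32 * (2 * (a * d)) * (s + 1)) ^ 9 := by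
    refine le_trans ?_ (Nat.le_self_pow (by norm_num) _)
    exact Nat.le_mul_of_pos_left _ (by positivity)
  calc 1024 * a ^ 2 * (s + 1) = 1024 * a ^ 2 * 1 * (s + 1) := by ring
    _ ≤ 2 ^ 102 * (2 * (a * d)) ^ 87 * T ^ 15 * (32 * (2 * (a * d)) * (s + 1)) ^ 9 := by
        gcongr
        norm_num

end

/-- the lost measure is small -/
theorem num_E {a d s : ℕ} (ha : 1 ≤ a) (hd : 1 ≤ d) :
    (s : ℝ) * (1 / 2) ^ (WS (a * d) s + 1) + 32 * (a : ℝ) ^ 2 * d *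
      ((1 / 2) ^ (mS (a * d) + 1) + (1 / 2) ^ (3 * Nat.clog 2 (a * d) + 10) +
        2 * (1 / 2) ^ rS (a * d)) ≤ 1 / (8 * a * d) := by
  have ha' : (1 : ℝ) ≤ a := by exact_mod_cast ha
  have hd' : (1 : ℝ) ≤ d := by exact_mod_cast hd
  have hs' : (0 : ℝ) ≤ s := by positivity
  have hx : (1 : ℝ) ≤ a * d := by nlinarith
  obtain ⟨l, hl⟩ : ∃ l, l = Nat.clog 2 (a * d) := ⟨_, rfl⟩
  have h1 : ((a : ℝ) * d) ≤ 2 ^ l := by
    have := Nat.le_pow_clog (b := 2) (by norm_num) (a * d)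
    rw [← hl] at this
    exact_mod_cast this
  have h2 : (32 * ((a : ℝ) * d) * (s + 1)) ≤ 2 ^ WS (a * d) s := by
    have := Nat.le_pow_clog (b := 2) (by norm_num) (32 * (a * d) * (s + 1))
    unfold WS
    exact_mod_cast this
  have h3 : (s : ℝ) * (1 / 2) ^ (WS (a * d) s + 1) ≤ 1 / (64 * (a * d)) := by
    rw [one_div_pow, pow_succ, mul_one_div, div_le_div_iff₀ (by positivity) (by positivity)]
    nlinarith
  have e : (1 / 2 : ℝ) ^ (mS (a * d) + 1) + (1 / 2) ^ (3 * Nat.clog 2 (a * d) + 10) +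
      2 * (1 / 2) ^ rS (a * d) = 3 / 1024 * (1 / (2 ^ l) ^ 3) := by
    unfold mS rS
    rw [← hl]
    have e1 : ((1 : ℝ) / 2) ^ (3 * l) = 1 / (2 ^ l) ^ 3 := by
      rw [one_div_pow, ← pow_mul, mul_comm]
    rw [show 3 * l + 9 + 1 = 3 * l + 10 by ring, pow_add, pow_add, e1]
    ring
  rw [e]
  have h4 : (a : ℝ) ^ 2 * d * (1 / (2 ^ l) ^ 3) ≤ 1 / (a * d) := by
    rw [mul_one_div, div_le_div_iff₀ (by positivity) (by positivity)]
    calc (a : ℝ) ^ 2 * d * (a * d) ≤ (a * d) ^ 3 := by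
          have : (a : ℝ) ^ 2 * d * (a * d) * 1 ≤ (a : ℝ) ^ 2 * d * (a * d) * d :=
            mul_le_mul_of_nonneg_left hd' (by positivity)
          nlinarith
      _ ≤ (2 ^ l) ^ 3 := pow_le_pow_left₀ (by positivity) h1 3
      _ = _ := by ring
  have e8 : (1 : ℝ) / (8 * a * d) = 1 / 8 * (1 / (a * d)) := by
    field_simp
  have e64 : (1 : ℝ) / (64 * (a * d)) = 1 / 64 * (1 / (a * d)) := by
    field_simp
  rw [e8]
  rw [e64] at h3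
  have h5 : 32 * (a : ℝ) ^ 2 * d * (3 / 1024 * (1 / (2 ^ l) ^ 3)) =
      3 / 32 * ((a : ℝ) ^ 2 * d * (1 / (2 ^ l) ^ 3)) := by ring
  rw [h5]
  have hp : (0 : ℝ) ≤ 1 / (a * d) := by positivity
  linarith

end Pool.Agent.H.MP_cba12a_lc.SR
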