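import Pool.Agent.H.MP_cba12a_lc.SR.Err
import Pool.Agent.H.MP_cba12a_lc.SR.Bad
import Pool.Agent.H.MP_cba12a_lc.SR.Num
import Pool.Agent.H.MP_cba12a_lc.Clock

/-!
The learner with all parameters, and its analysis.
-/

namespace Pool.Agent.H.MP_cba12a_lc.SR

open Pool.Agent.H.MP_5be563_lc.PT Pool.Agent.H.MP_cba12a_lc

@[fun_prop]
theorem poly_pow {α : Type} [Enc α] {f : α → ℕ} (hf : Poly f) (k : ℕ) :
    Poly (fun a => f a ^ k) := by
  induction k with
  | zero =>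
    simp only [pow_zero]
    fun_prop
  | succ k ih =>
    simp only [pow_succ]
    fun_prop

/-- the learner on the input `(n, s, a, d, S)`, with the value
`T = (n + s + a * d) ^ Nat.clog 2 (a * d)` as a further argument -/
def learnT (p : (ℕ × ℕ × ℕ × ℕ × Samples) × ℕ) : List (List Lit) :=
  coreS (rS (p.1.2.2.1 * p.1.2.2.2.1)) (4 * p.1.2.2.1) (16 * p.1.2.2.1 * (p.1.2.1 + 1))
    (32 * p.1.2.2.1 * (p.1.2.1 + 1)) (NS (p.1.2.2.1 * p.1.2.2.2.1) p.1.1 p.1.2.1 p.2)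
    (ThS (p.1.2.2.1 * p.1.2.2.2.1) p.1.2.1 p.2)
    (WS (p.1.2.2.1 * p.1.2.2.2.1) p.1.2.1 + 1) p.1.1 p.1.2.2.2.2

theorem poly_learnT : Poly learnT := by
  unfold learnT
  have hx : Poly (fun p : (ℕ × ℕ × ℕ × ℕ × Samples) × ℕ => p.1.2.2.1 * p.1.2.2.2.1) := by
    fun_prop
  have hTh : Poly (fun p : (ℕ × ℕ × ℕ × ℕ × Samples) × ℕ =>
      ThS (p.1.2.2.1 * p.1.2.2.2.1) p.1.2.1 p.2) := by
    unfold ThS
    fun_prop
  have hN : Poly (fun p : (ℕ × ℕ × ℕ × ℕ × Samples) × ℕ =>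
      NS (p.1.2.2.1 * p.1.2.2.2.1) p.1.1 p.1.2.1 p.2) := by
    unfold NS
    fun_prop
  have hW : Poly (fun p : (ℕ × ℕ × ℕ × ℕ × Samples) × ℕ =>
      WS (p.1.2.2.1 * p.1.2.2.2.1) p.1.2.1) := by
    unfold WS
    fun_prop
  have hr : Poly (fun p : (ℕ × ℕ × ℕ × ℕ × Samples) × ℕ =>
      rS (p.1.2.2.1 * p.1.2.2.2.1)) := by
    unfold rS
    fun_prop
  exact poly_coreS hr (by fun_prop) (by fun_prop) (by fun_prop) hN hTh (by fun_prop)
    (by fun_prop) (by fun_prop)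

/-- the value `T` -/
def TT (p : ℕ × ℕ × ℕ × ℕ × Samples) : ℕ :=
  (p.1 + p.2.1 + p.2.2.1 * p.2.2.2.1) ^ Nat.clog 2 (p.2.2.1 * p.2.2.2.1)

/-- the learner -/
def learn (p : ℕ × ℕ × ℕ × ℕ × Samples) : List (List Lit) := learnT (p, TT p)

open Polynomial in
/-- the polynomial for the threshold -/
noncomputable def ThP : Polynomial ℕ :=
  2 ^ 102 * (2 * X) ^ 87 * X ^ 15 * (32 * (2 * X) * (X + 1)) ^ 9

open Polynomial in
/-- the polynomial for the number of samples -/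
noncomputable def QP : Polynomial ℕ :=
  4 * (8 * ThP) ^ 2 * ((2 * X + 1) * (32 * X * (X + 1) + 1) + 2 + X)

theorem eval_ThP (y : ℕ) : ThP.eval y = ThS y y y := by
  unfold ThP ThS
  simp

theorem eval_QP (y : ℕ) : QP.eval y =
    4 * (8 * ThS y y y) ^ 2 * ((2 * y + 1) * (32 * y * (y + 1) + 1) + 2 + y) := by
  unfold QP
  rw [← eval_ThP]
  simp

theorem mu_errE_eq {n : ℕ} (f : (Fin n → Bool) → Bool) (H : List (List Lit)) :
    mu (errE f H) = err f H := by
  unfold mu err ct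
  rw [Fintype.card_fun, Fintype.card_fin, Fintype.card_bool]
  push_cast
  congr 2
  refine congrArg Finset.card ?_
  ext x
  simp only [Finset.mem_filter, Finset.mem_univ, true_and, errE_iff]
  exact ne_comm

/-- **Main theorem.** -/
theorem main (n s a d : ℕ) (S : Fin s → Finset (Fin n)) (ha : 1 ≤ a) (hd : 1 ≤ d) :
    ∃ Bad : Finset (Fin s → Fin n → Bool),
      d * Bad.card ≤ Fintype.card (Fin s → Fin n → Bool) ∧
      ∀ σ, σ ∉ Bad → ∀ (b m : ℕ) (f : (Fin n → Bool) → Bool), 1 ≤ b →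
        QP.eval ((n + s + a * d) ^ Nat.clog 2 (a * d) + (n + s + a * d)) *
          (Finset.univ.filter fun x => f x ≠ sdnf S σ x).card ≤ 2 ^ n →
        QP.eval ((n + s + a * d) ^ Nat.clog 2 (a * d) + (n + s + a * d) + Nat.clog 2 b) ≤ m →
        (1 - 1 / (b : ℝ)) * ((2 : ℝ) ^ n) ^ m ≤
          ((Finset.univ.filter fun ω : Fin m → Fin n → Bool =>
            err f (learn (n, s, a, d, smp f ω)) ≤ 1 / (a : ℝ)).card : ℝ) := by
  have hx : 1 ≤ a * d := Nat.succ_le_of_lt (by positivity)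
  obtain ⟨T, hT⟩ : ∃ T, T = (n + s + a * d) ^ Nat.clog 2 (a * d) := ⟨_, rfl⟩
  have hT1 : 1 ≤ T := by
    rw [hT]
    exact Nat.one_le_pow _ _ (by omega)
  obtain ⟨Θ, hΘ⟩ : ∃ Θ, Θ = ThS (a * d) s T := ⟨_, rfl⟩
  have hΘ0 : 0 < Θ := by rw [hΘ]; exact num_Th_pos hx hT1
  have hΘ0' : (0 : ℝ) < Θ := by exact_mod_cast hΘ0
  have ha' : (1 : ℝ) ≤ a := by exact_mod_cast ha
  have hs' : (0 : ℝ) ≤ s := by positivity
  obtain ⟨Bad, hB1, hB2⟩ := exists_bad S (mS (a * d)) (rS (a * d)) (WS (a * d) s) a d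
    ((1 / 2) ^ (3 * Nat.clog 2 (a * d) + 10)) (2 / Θ) ha hd (by positivity)
    (by unfold rS; omega) (by
      have h := num_Th hx hT
      rw [← hΘ] at h
      have h' : (4 : ℝ) * 2 ^ ((mS (a * d) + 1) * mS (a * d) + mS (a * d) * WS (a * d) s +
          (3 * Nat.clog 2 (a * d) + 10)) ≤ Θ := by exact_mod_cast h
      rw [← pow_add, one_div_pow]
      rw [show 2 * (2 / (Θ : ℝ)) = 4 / Θ by ring, div_le_div_iff₀ hΘ0' (by positivity), one_mul]
      exact h') (num_E ha hd)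
  refine ⟨Bad, hB1, ?_⟩
  intro σ hσ b m f hb hfg hm
  rw [← hT] at hfg hm
  -- precision
  obtain ⟨M, hM⟩ : ∃ M, M = 8 * Θ := ⟨_, rfl⟩
  have hM0 : 0 < M := by omega
  have hM0' : (0 : ℝ) < M := by exact_mod_cast hM0
  have hMr : (M : ℝ) = 8 * Θ := by rw [hM]; push_cast; ring
  obtain ⟨τ, hτ⟩ : ∃ τ : ℝ, τ = 1 / M := ⟨_, rfl⟩
  have hτ0 : 0 < τ := by rw [hτ]; positivity
  have hΘX : ∀ c, Θ ≤ ThS (T + (n + s + a * d) + c) (T + (n + s + a * d) + c)
      (T + (n + s + a * d) + c) := by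
    intro c
    rw [hΘ]
    exact ThS_mono (by omega) (by omega) (by omega)
  have hbig := num_Th_ge (s := s) (T := T) ha hd hT1
  rw [← hΘ] at hbig
  have hbig' : (1024 : ℝ) * a ^ 2 * (s + 1) ≤ Θ := by exact_mod_cast hbig
  have hτs : (1024 : ℝ) * a ^ 2 * (s + 1) * 8 * τ ≤ 1 := by
    rw [hτ, mul_one_div, div_le_one hM0', hMr]
    linarith
  rw [eval_QP] at hfg hm
  have hdst : dst f (sdnf S σ) ≤ τ := by
    rw [hτ]
    unfold dst
    rw [div_le_div_iff₀ (by positivity) hM0', one_mul]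
    have h1 : M ≤ 4 * (8 * ThS (T + (n + s + a * d)) (T + (n + s + a * d))
        (T + (n + s + a * d))) ^ 2 *
        ((2 * (T + (n + s + a * d)) + 1) * (32 * (T + (n + s + a * d)) *
          (T + (n + s + a * d) + 1) + 1) + 2 + (T + (n + s + a * d))) := by
      have h2 := hΘX 0
      rw [add_zero] at h2
      generalize ThS (T + (n + s + a * d)) (T + (n + s + a * d)) (T + (n + s + a * d)) = Y at h2 ⊢
      have h3 : M ≤ 8 * Y := by omega
      have h4 : 8 * Y ≤ (8 * Y) ^ 2 := Nat.le_self_pow (by norm_num) _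
      have h5 : (8 * Y) ^ 2 ≤ 4 * (8 * Y) ^ 2 := by omega
      exact (h3.trans (h4.trans h5)).trans (Nat.le_mul_of_pos_right _ (by positivity))
    have h2 := (Nat.mul_le_mul_right _ h1).trans hfg
    have h3 : (M : ℝ) * ((Finset.univ.filter fun x => f x ≠ sdnf S σ x).card : ℝ) ≤ 2 ^ n := by
      exact_mod_cast h2
    rw [mul_comm]
    exact h3
  have hm1 : 4 * M ^ 2 * ((2 * n + 1) * (32 * a * (s + 1) + 1) + 2 + Nat.clog 2 b) ≤ m := by
    refine le_trans ?_ hm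
    have h2 := hΘX (Nat.clog 2 b)
    have ha2 : a ≤ T + (n + s + a * d) + Nat.clog 2 b := by nlinarith
    refine Nat.mul_le_mul (Nat.mul_le_mul_left _ (Nat.pow_le_pow_left (by omega) 2)) ?_
    have h5 : (2 * n + 1) * (32 * a * (s + 1) + 1) ≤
        (2 * (T + (n + s + a * d) + Nat.clog 2 b) + 1) *
          (32 * (T + (n + s + a * d) + Nat.clog 2 b) *
            (T + (n + s + a * d) + Nat.clog 2 b + 1) + 1) := by
      refine Nat.mul_le_mul (by omega) ?_
      have := Nat.mul_le_mul (Nat.mul_le_mul_left 32 ha2)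
        (show s + 1 ≤ T + (n + s + a * d) + Nat.clog 2 b + 1 by omega)
      omega
    omega
  have hm0 : 0 < m := by
    have h1 : 0 < 4 * M ^ 2 := by positivity
    have h2 := Nat.mul_pos h1
      (show 0 < (2 * n + 1) * (32 * a * (s + 1) + 1) + 2 + Nat.clog 2 b by omega)
    omega
  refine rep8_of_large f (32 * a * (s + 1)) b hb τ hτ0 ?_ ?_ _ ?_
  · rw [hτ, div_le_one hM0']
    have : (1 : ℝ) ≤ Θ := by exact_mod_cast hΘ0
    linarith
  · have hm' : (4 : ℝ) * M ^ 2 * ((2 * n + 1) * (32 * a * (s + 1) + 1) + 2 + Nat.clog 2 b) ≤ m := by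
      exact_mod_cast hm1
    have h1 : (4 : ℝ) * M ^ 2 * ((2 * n + 1) * (32 * a * (s + 1) + 1) + 2 + Nat.clog 2 b) * τ ^ 2 =
        4 * ((2 * n + 1) * (32 * a * (s + 1) + 1) + 2 + Nat.clog 2 b) := by
      rw [hτ]
      field_simp
    have h2 := mul_le_mul_of_nonneg_right hm' (show (0 : ℝ) ≤ τ ^ 2 by positivity)
    rw [h1] at h2
    push_cast
    linarith
  · intro ω hω hωX
    rw [← mu_errE_eq]
    have e : learn (n, s, a, d, smp f ω) =
        coreS (rS (a * d)) (4 * a) (16 * a * (s + 1)) (32 * a * (s + 1)) (NS (a * d) n s T) Θ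
          (WS (a * d) s + 1) n (smp f ω) := by
      rw [hΘ, hT]
      rfl
    rw [e]
    refine coreS_error (τ := τ) (θ := 2 / Θ) (W := WS (a * d) s) (S := S) (σ := σ) hm0 ha
      (by positivity) hΘ0 hτ0 hω hωX hdst ?_ le_rfl ?_ ?_ le_rfl ?_ ?_ ?_ (hB2 σ hσ)
    · rw [hτ, hMr]
      refine le_of_eq ?_
      field_simp
    · rw [hΘ]
      exact num_N1 hx
    · exact num_N2 hx hT
    · -- rounds of the greedy cover
      push_cast
      have h1 : (32 : ℝ) * a * (s + 1) * (1 / (16 * a * (s + 1)) - τ) =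
          2 - 32 * a * (s + 1) * τ := by
        field_simp
        ring
      rw [h1]
      have h2 : (32 : ℝ) * a * (s + 1) * τ ≤ 1024 * a ^ 2 * (s + 1) * 8 * τ := by
        have h3 : (a : ℝ) ≤ a ^ 2 := by nlinarith
        have h4 : (0 : ℝ) ≤ (s + 1) * τ := by positivity
        nlinarith [mul_le_mul_of_nonneg_right h3 h4]
      have h5 : (32 : ℝ) * a * (s + 1) * τ < 1 := by
        have h3 : (a : ℝ) ≤ a ^ 2 := by nlinarith
        have h4 : (0 : ℝ) < (s + 1) * τ := by positivity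
        nlinarith [mul_le_mul_of_nonneg_right h3 h4.le]
      linarith
    · push_cast
      rw [le_div_iff₀ (by positivity)]
      calc (32 : ℝ) * a * (s + 1) * (2 * τ) * (16 * a) = 1024 * a ^ 2 * (s + 1) * τ := by ring
        _ ≤ 1024 * a ^ 2 * (s + 1) * 8 * τ := by
            have : (0 : ℝ) ≤ 1024 * a ^ 2 * (s + 1) * τ := by positivity
            nlinarith
        _ ≤ 1 := hτs
    · push_cast
      have h1 : ((s : ℝ) + 1) * (1 / (16 * a * (s + 1)) + (8 * a + 1) * τ) =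
          1 / (16 * a) + (8 * a + 1) * (s + 1) * τ := by
        field_simp
      rw [h1]
      have h2 : (1 : ℝ) / (8 * a) = 1 / (16 * a) + 1 / (16 * a) := by
        field_simp
        norm_num
      rw [h2]
      refine add_le_add le_rfl ?_
      rw [le_div_iff₀ (by positivity)]
      have h3 : (8 * (a : ℝ) + 1) ≤ 9 * a := by linarith
      have h4 : (0 : ℝ) ≤ (s + 1) * τ * (16 * a) := by positivity
      calc (8 * (a : ℝ) + 1) * (s + 1) * τ * (16 * a) = (8 * (a : ℝ) + 1) *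
            ((s + 1) * τ * (16 * a)) := by ring
        _ ≤ 9 * a * ((s + 1) * τ * (16 * a)) := mul_le_mul_of_nonneg_right h3 h4
        _ = 144 * a ^ 2 * (s + 1) * τ := by ring
        _ ≤ 1024 * a ^ 2 * (s + 1) * 8 * τ := by
            have : (0 : ℝ) ≤ a ^ 2 * (s + 1) * τ := by positivity
            nlinarith
        _ ≤ 1 := hτs

end Pool.Agent.H.MP_cba12a_lc.SR
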